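import Pool.Agent.Q155.IB.Tr

/-!
# Affine images of invariant convex bodies: final forms
-/

set_option autoImplicit false

namespace Pool.Agent.Q155.IB

open MeasureTheory Set Filter Topology
open scoped ENNReal InnerProductSpace
open Pool.Agent.W695.KH (Eu)
open Pool.Agent.Y506.RG (EW VW Adm Star)
open Pool.Agent.Y506.PV (CcW LCn ind adm_ind vol_pos)

/-- affine images -/
theorem star_aff_kl (r : ℕ) (C : ℝ) (hC : 0 < C) : ∃ c : ℝ, 0 < c ∧
    ∀ (κ : Type) [Fintype κ] (G : Set (EuclideanSpace ℝ κ ≃ₗᵢ[ℝ] EuclideanSpace ℝ κ)), KL G C →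
    ∀ (n : ℕ) (K : Set (EuclideanSpace ℝ κ)) (T : EuclideanSpace ℝ κ →ᵃ[ℝ] Eu (Fin n)), 1 ≤ n →
    Fintype.card κ ≤ n + r → IsCompact K → Convex ℝ K → (interior K).Nonempty →
    (∀ g ∈ G, ∀ x, g x ∈ K ↔ x ∈ K) → Function.Surjective T →
    IsCompact (T '' K) ∧ Convex ℝ (T '' K) ∧ (interior (T '' K)).Nonempty ∧
      Star c (ind (T '' K)) := by
  obtain ⟨c, hc, H⟩ := star_kl r C hC
  refine ⟨c, hc, fun κ _ G hG n K T hn hcard hcp hcv hint hinv hT => ?_⟩
  have hTL : ∀ x, T x = T.linear x + T 0 := fun x => by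
    have h := T.map_vadd 0 x
    simpa [vadd_eq_add] using h
  have hA : Function.Surjective T.linear := by
    intro y
    obtain ⟨x, hx⟩ := hT (y + T 0)
    refine ⟨x, ?_⟩
    have h := hTL x
    rw [hx] at h
    exact (add_right_cancel h).symm
  obtain ⟨h1, h2, h3, h4⟩ := H κ G hG n K T.linear hn hcard hcp hcv hint hinv hA
  have he : T '' K = (fun y => y + T 0) '' (T.linear '' K) := by
    rw [image_image]
    exact image_congr fun x _ => hTL x
  have hcp : IsCompact (T '' K) := by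
    rw [he]
    exact h1.image (by fun_prop)
  refine ⟨hcp, ?_, ?_, ?_⟩
  · rw [he]
    have h := h2.translate (T 0)
    have e : (fun y => y + T 0) = fun y => T 0 + y := funext fun y => add_comm _ _
    rw [e]
    exact h
  · rw [he]
    have hop : IsOpen ((fun y => y + T 0) '' interior (T.linear '' K)) :=
      (Homeomorph.addRight (T 0)).isOpenMap _ isOpen_interior
    exact (h3.image _).mono (interior_maximal (image_mono interior_subset) hop)
  · rw [he]
    exact Pool.Agent.Y506.PV.star_trans _ _ (adm_ind _ h1.measurableSet h1.isBounded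
      (vol_pos h3)) h4

/-- the comparison with halfspaces -/
theorem che_kl (r : ℕ) (C : ℝ) (hC : 0 < C) : ∃ c : ℝ, 0 < c ∧
    ∀ (κ : Type) [Fintype κ] (G : Set (EuclideanSpace ℝ κ ≃ₗᵢ[ℝ] EuclideanSpace ℝ κ)), KL G C →
    ∀ (n : ℕ) (K : Set (EuclideanSpace ℝ κ)) (T : EuclideanSpace ℝ κ →ᵃ[ℝ] Eu (Fin n)), 1 ≤ n →
    Fintype.card κ ≤ n + r → IsCompact K → Convex ℝ K → (interior K).Nonempty →
    (∀ g ∈ G, ∀ x, g x ∈ K ↔ x ∈ K) → Function.Surjective T → ∀ t : ℝ≥0∞,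
    (∀ (a : Eu (Fin n)) (b : ℝ), a ≠ 0 →
      t * min (((volume (T '' K))⁻¹ • volume.restrict (T '' K)) {x | ⟪a, x⟫_ℝ ≤ b})
        (1 - ((volume (T '' K))⁻¹ • volume.restrict (T '' K)) {x | ⟪a, x⟫_ℝ ≤ b}) ≤
      liminf (fun ε : ℝ => (((volume (T '' K))⁻¹ • volume.restrict (T '' K))
        (Metric.thickening ε {x | ⟪a, x⟫_ℝ ≤ b}) -
        ((volume (T '' K))⁻¹ • volume.restrict (T '' K)) {x | ⟪a, x⟫_ℝ ≤ b}) /
          ENNReal.ofReal ε) (𝓝[>] 0)) →
    ∀ S : Set (Eu (Fin n)), ((volume (T '' K))⁻¹ • volume.restrict (T '' K)) S = 1 / 2 →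
    ENNReal.ofReal c * t * min (((volume (T '' K))⁻¹ • volume.restrict (T '' K)) S)
        (1 - ((volume (T '' K))⁻¹ • volume.restrict (T '' K)) S) ≤
      liminf (fun ε : ℝ => (((volume (T '' K))⁻¹ • volume.restrict (T '' K))
        (Metric.thickening ε S) - ((volume (T '' K))⁻¹ • volume.restrict (T '' K)) S) /
          ENNReal.ofReal ε) (𝓝[>] 0) := by
  obtain ⟨c, hc, H⟩ := star_aff_kl r C hC
  obtain ⟨c', hc', H'⟩ := Pool.Agent.Y532.PV.che c hc
  refine ⟨c', hc', fun κ _ G hG n K T hn hcard hcp hcv hint hinv hT t ht S hS => ?_⟩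
  obtain ⟨h1, h2, h3, h4⟩ := H κ G hG n K T hn hcard hcp hcv hint hinv hT
  obtain ⟨μ, hμ⟩ : ∃ μ : Measure (Eu (Fin n)), μ = (volume (T '' K))⁻¹ •
    volume.restrict (T '' K) := ⟨_, rfl⟩
  rw [← hμ] at ht hS ⊢
  have hprob : IsProbabilityMeasure μ := by
    rw [hμ]
    exact Pool.Agent.Y506.KS.unif_prob (vol_pos h3) h1.measure_lt_top.ne
  have key := H' n _ h1 h2 h3 h4 μ hμ t ht S hS
  refine le_trans ?_ key
  calc ENNReal.ofReal c' * t * min (μ S) (1 - μ S)
      ≤ ENNReal.ofReal c' * t * 1 := mul_le_mul_right ((min_le_left _ _).trans prob_le_one) _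
    _ = _ := mul_one _

end Pool.Agent.Q155.IB
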