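import Pool.Agent.Q155.IB.Lin
import Pool.Agent.TH594.KP.Spec

/-!
# Particles
-/

set_option autoImplicit false

namespace Pool.Agent.Q155.IB

open MeasureTheory Set Filter Topology
open scoped ENNReal InnerProductSpace
open Pool.Agent.H212R2.KLS (mu)

/-- particles -/
theorem kl2_part : ∃ C : ℝ, 0 < C ∧ ∀ (N d q : ℕ) (b : Fin N → Fin q), Function.Surjective b →
    1 ≤ d → 1 ≤ q → KL2 (Pool.Agent.TH594.KP.GG (Fin d) b) (C * Pool.Agent.TH594.KP.fac q d) := by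
  obtain ⟨C, hC, H⟩ := Pool.Agent.TH594.KP.sc
  refine ⟨8 * C, by positivity, fun N d q b hb hd hq ρ hρ h1 hcov f hf hL => ?_⟩
  have hfac := Pool.Agent.TH594.KP.fac_pos hq hd
  have key := Pool.Agent.TH594.KP.full (mul_pos hC hfac) (H b hb hd hq) ρ hρ h1 1 one_pos
    (fun θ => by rw [one_mul]; exact hcov θ) f hf
  obtain ⟨k1, k2⟩ := key.1 hL
  refine ⟨k1, k2.trans (le_of_eq ?_)⟩
  ring

/-- particles -/
theorem kl_part : ∃ C : ℝ, 0 < C ∧ ∀ (N d q : ℕ) (b : Fin N → Fin q), Function.Surjective b →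
    1 ≤ d → 1 ≤ q → KL (Pool.Agent.TH594.KP.GG (Fin d) b) (C * Pool.Agent.TH594.KP.fac q d) := by
  obtain ⟨C, hC, H⟩ := kl2_part
  exact ⟨C, hC, fun N d q b hb hd hq => (H N d q b hb hd hq).kl⟩

end Pool.Agent.Q155.IB
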