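import Pool.Agent.Q155.IB.Lin
import Pool.Agent.TH597.HX.Fin
import Pool.Agent.TH591.TT.FinS

/-!
# Trees and rotations
-/

set_option autoImplicit false

namespace Pool.Agent.Q155.IB

open MeasureTheory Set Filter Topology
open scoped ENNReal InnerProductSpace
open Pool.Agent.H212R2.KLS (mu)

/-- trees -/
theorem kl2_tree : ∃ C : ℝ, 0 < C ∧ ∀ (k : ℕ) (m : Fin k → ℕ), 1 ≤ k → (∀ j, 1 ≤ m j) →
    KL2 (Pool.Agent.TH597.HX.Fin'.AG m) (C ^ (k ^ 2) * Pool.Agent.TH597.HX.Tr.F m) := by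
  obtain ⟨C, hC, H⟩ := Pool.Agent.TH597.HX.Fin'.fullA
  refine ⟨C, hC, fun k m hk hm ρ hρ h1 hcov f hf hL => ?_⟩
  have key := H k m hk hm ρ hρ h1 1 one_pos (fun θ => by rw [one_mul]; exact hcov θ) f hf
  obtain ⟨k1, k2⟩ := key.1 hL
  refine ⟨k1, k2.trans (le_of_eq ?_)⟩
  ring

theorem norm_le_sum {κ : Type} [Fintype κ] [DecidableEq κ] (x : EuclideanSpace ℝ κ) :
    ‖x‖ ≤ ∑ i, |⟪EuclideanSpace.single i (1 : ℝ), x⟫_ℝ| := by
  have e2 : ∀ i, ⟪EuclideanSpace.single i (1 : ℝ), x⟫_ℝ = x i := by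
    intro i
    rw [EuclideanSpace.inner_single_left]
    simp
  simp only [e2]
  rw [EuclideanSpace.norm_eq]
  apply Real.sqrt_le_iff.2
  refine ⟨Finset.sum_nonneg fun i _ => abs_nonneg _, ?_⟩
  simp only [Real.norm_eq_abs]
  exact Finset.sum_sq_le_sq_sum_of_nonneg fun i _ => abs_nonneg _

/-- Lipschitz functions are square integrable -/
theorem lip_memLp {κ : Type} [Fintype κ] (μ : Measure (EuclideanSpace ℝ κ)) [IsFiniteMeasure μ]
    (h : ∀ θ : EuclideanSpace ℝ κ, MemLp (fun x => ⟪θ, x⟫_ℝ) 2 μ) (f : EuclideanSpace ℝ κ → ℝ)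
    (hf : ContDiff ℝ 1 f) (hL : ∀ x, ‖fderiv ℝ f x‖ ≤ 1) : MemLp f 2 μ := by
  classical
  have hlip : ∀ x, ‖f x - f 0‖ ≤ 1 * ‖x - 0‖ := fun x =>
    Convex.norm_image_sub_le_of_norm_fderiv_le (s := univ)
      (fun y _ => hf.differentiable one_ne_zero y) (fun y _ => hL y) convex_univ (mem_univ 0)
      (mem_univ x)
  have h1 : ∀ i ∈ (Finset.univ : Finset κ), MemLp (fun x : EuclideanSpace ℝ κ =>
      |⟪EuclideanSpace.single i (1 : ℝ), x⟫_ℝ|) 2 μ := fun i _ =>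
    (h (EuclideanSpace.single i 1)).norm
  have hsum := memLp_finsetSum (Finset.univ : Finset κ) h1
  have hg := (memLp_const (μ := μ) (p := 2) |f 0|).add hsum
  refine hg.mono hf.continuous.aestronglyMeasurable (Eventually.of_forall fun x => ?_)
  have h2 := hlip x
  rw [sub_zero, one_mul] at h2
  have h3 : ‖f x‖ ≤ |f 0| + ‖x‖ := by
    have := norm_sub_norm_le (f x) (f 0)
    rw [Real.norm_eq_abs (f 0)] at this
    linarith
  have h4 := norm_le_sum x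
  rw [Pi.add_apply, Real.norm_of_nonneg (add_nonneg (abs_nonneg _) (Finset.sum_nonneg fun i _ =>
    abs_nonneg _))]
  linarith

/-- rotations -/
theorem kl2_rot : ∃ C : ℝ, 0 < C ∧ ∀ {κ : Type} [Fintype κ] {q m N : ℕ}, 3 ≤ N →
    ∀ ι : EuclideanSpace ℝ κ →ₗᵢ[ℝ] EuclideanSpace ℝ (Pool.Agent.TH591.TT.Ix q m N),
    Pool.Agent.TH591.TT.InvR ι →
    KL2 (Pool.Agent.TH591.TT.GS ι) (C * Pool.Agent.TH591.TT.fac q m N) := by
  obtain ⟨C, hC, h⟩ := Pool.Agent.TH591.TT.spS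
  refine ⟨C, hC, fun {κ} _ {q m N} hN ι hι ρ hρ h1 hcov f hf hL => ?_⟩
  have hprob : IsProbabilityMeasure (mu ρ) := ⟨h1⟩
  have hG : Pool.Agent.TH591.TT.GD (Pool.Agent.TH591.TT.GS ι) ρ :=
    ⟨hρ.nonneg, hρ.meas, hρ.logc, hρ.inv⟩
  have hmem : ∀ θ : EuclideanSpace ℝ κ, MemLp (fun x => ⟪θ, x⟫_ℝ) 2 (mu ρ) := by
    intro θ
    have hm : AEStronglyMeasurable (fun x : EuclideanSpace ℝ κ => ⟪θ, x⟫_ℝ) (mu ρ) := by
      have : Continuous fun x : EuclideanSpace ℝ κ => ⟪θ, x⟫_ℝ := by fun_prop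
      exact this.aestronglyMeasurable
    rw [← ProbabilityTheory.evariance_lt_top_iff_memLp hm]
    exact lt_of_le_of_lt (hcov θ) ENNReal.ofReal_lt_top
  have hfL := lip_memLp (mu ρ) hmem f hf hL
  refine ⟨hfL, ?_⟩
  have hfac := Pool.Agent.TH591.TT.fac_pos q m N
  have key := Pool.Agent.TH591.TT.centG (mul_pos hC hfac) (h hN ι hι) ρ hG h1 1 one_pos
    (fun θ => by rw [one_mul]; exact hcov θ) f hf hfL
  rw [← ProbabilityTheory.variance_eq_integral hf.continuous.measurable.aemeasurable,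
    mul_one] at key
  have h2 : ∫⁻ x, ENNReal.ofReal (‖fderiv ℝ f x‖ ^ 2) ∂(mu ρ) ≤ 1 := by
    calc ∫⁻ x, ENNReal.ofReal (‖fderiv ℝ f x‖ ^ 2) ∂(mu ρ) ≤ ∫⁻ _, 1 ∂(mu ρ) := by
          refine lintegral_mono fun x => ?_
          rw [← ENNReal.ofReal_one]
          exact ENNReal.ofReal_le_ofReal (pow_le_one₀ (norm_nonneg _) (hL x))
      _ = 1 := by rw [lintegral_const, h1, one_mul]
  have h3 : ENNReal.ofReal (ProbabilityTheory.variance f (mu ρ)) ≤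
      ENNReal.ofReal (C * Pool.Agent.TH591.TT.fac q m N) := by
    refine key.trans ?_
    calc _ ≤ ENNReal.ofReal (C * Pool.Agent.TH591.TT.fac q m N) * 1 := mul_le_mul_right h2 _
      _ = _ := mul_one _
  exact (ENNReal.ofReal_le_ofReal_iff (mul_pos hC hfac).le).1 h3

end Pool.Agent.Q155.IB
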