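import Pool.Agent.Q155.IB.Cls2
import Pool.Agent.H888R2.KT.G4
import Pool.Agent.H888R2.KT.C1b

/-!
# Simultaneous conjugation of Hermitian matrices
-/

set_option autoImplicit false

namespace Pool.Agent.Q155.IB

open MeasureTheory Set Filter Topology
open scoped ENNReal InnerProductSpace
open Pool.Agent.H212R2.KLS (mu)
open Pool.Agent.H888R2.KT (DT di di_iso)
open Pool.Agent.H888R2.KC (Fr cj)

theorem KL2.mono {κ : Type} [Fintype κ]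
    {G : Set (EuclideanSpace ℝ κ ≃ₗᵢ[ℝ] EuclideanSpace ℝ κ)} {C C' : ℝ} (h : KL2 G C)
    (hC : C ≤ C') : KL2 G C' :=
  fun ρ hρ h1 hcov f hf hL => ⟨(h ρ hρ h1 hcov f hf hL).1, (h ρ hρ h1 hcov f hf hL).2.trans hC⟩

/-- the simultaneous conjugations by unitary matrices -/
def CG {𝕜 : Type} [RCLike 𝕜] {N : ℕ} {ι : Type} [Fintype ι] (q : ℕ)
    (Φ : EuclideanSpace ℝ ι →ₗ[ℝ] Matrix (Fin N) (Fin N) 𝕜) :
    Set (EuclideanSpace ℝ (Fin q × ι) ≃ₗᵢ[ℝ] EuclideanSpace ℝ (Fin q × ι)) :=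
  {g | ∃ U ∈ Matrix.unitaryGroup (Fin N) 𝕜, ∀ x, g x = di q (cj Φ U) x}

theorem kl2_conj : ∃ C : ℝ, 0 < C ∧ ∀ {𝕜 : Type} [RCLike 𝕜] {N q : ℕ} {ι : Type} [Fintype ι]
    {Φ : EuclideanSpace ℝ ι →ₗ[ℝ] Matrix (Fin N) (Fin N) 𝕜}, Fr Φ → 3 ≤ N → 1 ≤ q →
    KL2 (CG q Φ) (C * q ^ 4) := by
  obtain ⟨C, hC, h⟩ := Pool.Agent.H888R2.KT.mainq_centered
  refine ⟨C, hC, fun {𝕜} _ {N q ι} _ {Φ} hΦ hN hq ρ hρ h1 hcov f hf hL => ?_⟩
  have hprob : IsProbabilityMeasure (mu ρ) := ⟨h1⟩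
  have hD : DT Φ ρ := ⟨hρ.nonneg, hρ.meas, hρ.logc, fun U hU x => by
    obtain ⟨g, hg⟩ := di_iso (q := q) hΦ U hU
    rw [← hg]
    exact hρ.inv g ⟨U, hU, hg⟩ x⟩
  have hmem : ∀ θ : EuclideanSpace ℝ (Fin q × ι), MemLp (fun x => ⟪θ, x⟫_ℝ) 2 (mu ρ) := by
    intro θ
    have hm : AEStronglyMeasurable (fun x : EuclideanSpace ℝ (Fin q × ι) => ⟪θ, x⟫_ℝ) (mu ρ) := by
      have : Continuous fun x : EuclideanSpace ℝ (Fin q × ι) => ⟪θ, x⟫_ℝ := by fun_prop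
      exact this.aestronglyMeasurable
    rw [← ProbabilityTheory.evariance_lt_top_iff_memLp hm]
    exact lt_of_le_of_lt (hcov θ) ENNReal.ofReal_lt_top
  have hfL := lip_memLp (mu ρ) hmem f hf hL
  refine ⟨hfL, ?_⟩
  have hq0 : (0 : ℝ) < q := by exact_mod_cast hq
  have key := h hΦ hN hq ρ hD h1 1 one_pos
    (fun θ => by rw [one_mul]; exact hcov θ) f hf hfL
  rw [← ProbabilityTheory.variance_eq_integral hf.continuous.measurable.aemeasurable,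
    mul_one] at key
  have h2 : ∫⁻ x, ENNReal.ofReal (‖fderiv ℝ f x‖ ^ 2) ∂(mu ρ) ≤ 1 := by
    calc ∫⁻ x, ENNReal.ofReal (‖fderiv ℝ f x‖ ^ 2) ∂(mu ρ) ≤ ∫⁻ _, 1 ∂(mu ρ) := by
          refine lintegral_mono fun x => ?_
          rw [← ENNReal.ofReal_one]
          exact ENNReal.ofReal_le_ofReal (pow_le_one₀ (norm_nonneg _) (hL x))
      _ = 1 := by rw [lintegral_const, h1, one_mul]
  have h3 : ENNReal.ofReal (ProbabilityTheory.variance f (mu ρ)) ≤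
      ENNReal.ofReal (C * q ^ 4) := by
    refine key.trans ?_
    calc _ ≤ ENNReal.ofReal (C * q ^ 4) * 1 := mul_le_mul_right h2 _
      _ = _ := mul_one _
  exact (ENNReal.ofReal_le_ofReal_iff (by positivity)).1 h3

end Pool.Agent.Q155.IB
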