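import Pool.Agent.Q155.IB.Che

/-!
# Hyperplane sections of symmetric images of invariant bodies
-/

set_option autoImplicit false

namespace Pool.Agent.Q155.IB

open MeasureTheory Set Filter Topology
open scoped ENNReal InnerProductSpace
open Pool.Agent.W695.KH (Eu)
open Pool.Agent.Y506.RG (Star)
open Pool.Agent.Y506.PV (ind)

theorem hyp_kl (r : ℕ) (C : ℝ) (hC : 0 < C) : ∃ c : ℝ, 0 < c ∧
    ∀ (κ : Type) [Fintype κ] (G : Set (EuclideanSpace ℝ κ ≃ₗᵢ[ℝ] EuclideanSpace ℝ κ)), KL G C →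
    ∀ (n : ℕ) (K : Set (EuclideanSpace ℝ κ)) (T : EuclideanSpace ℝ κ →ᵃ[ℝ] Eu (Fin n)), 1 ≤ n →
    Fintype.card κ ≤ n + r → IsCompact K → Convex ℝ K → (interior K).Nonempty →
    (∀ g ∈ G, ∀ x, g x ∈ K ↔ x ∈ K) → Function.Surjective T → (∀ x ∈ T '' K, -x ∈ T '' K) →
    ∃ a : Eu (Fin n), a ≠ 0 ∧ ∀ E : Set (Eu (Fin n)), MeasurableSet E → E ⊆ interior (T '' K) →
      volume E = volume (interior (T '' K)) / 2 →
      Pool.Agent.W695.KH.sec (interior (T '' K)) a ≤
        ENNReal.ofReal c * Pool.Agent.W695.KH.per E (interior (T '' K)) := by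
  obtain ⟨c, hc, H⟩ := star_aff_kl r C hC
  obtain ⟨C', hC', H'⟩ := Pool.Agent.Y151.PV.hyp
  refine ⟨C' * c, by positivity, fun κ _ G hG n K T hn hcard hcp hcv hint hinv hT hs => ?_⟩
  obtain ⟨h1, h2, h3, h4⟩ := H κ G hG n K T hn hcard hcp hcv hint hinv hT
  obtain ⟨P, hP⟩ : ∃ P : Set (Eu (Fin n)), P = T '' K := ⟨_, rfl⟩
  rw [← hP] at h1 h2 h3 h4 hs ⊢
  have hcl : closure (interior P) = P := by
    rw [h2.closure_interior_eq_closure_of_nonempty_interior h3, h1.isClosed.closure_eq]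
  have hsi : ∀ x ∈ interior P, -x ∈ interior P := by
    intro x hx
    have hop : IsOpen ((fun y => -y) ⁻¹' interior P) := isOpen_interior.preimage continuous_neg
    have hsub : (fun y => -y) ⁻¹' interior P ⊆ P := by
      intro y hy
      have := hs _ (interior_subset hy)
      rwa [neg_neg] at this
    exact interior_maximal hsub hop (by simpa using hx)
  have h0 : (0 : Eu (Fin n)) ∈ interior P := by
    obtain ⟨x, hx⟩ := h3
    have h := h2.interior hx (hsi x hx) (by norm_num : (0 : ℝ) ≤ 1 / 2)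
      (by norm_num : (0 : ℝ) ≤ 1 / 2) (by norm_num)
    rwa [smul_neg, add_neg_cancel] at h
  obtain ⟨a, ha, h⟩ := H' n hn (interior P) isOpen_interior h2.interior
    (h1.isBounded.subset interior_subset) h0 hsi c hc (by rw [hcl]; exact h4)
  refine ⟨a, ha, fun E hE hEΩ hvol => ?_⟩
  by_cases hp : Pool.Agent.W695.KH.per E (interior P) = ⊤
  · rw [hp, ENNReal.mul_top (ENNReal.ofReal_pos.2 (by positivity)).ne']
    exact le_top
  · refine (h E hE hEΩ hvol _ (Pool.Agent.W695.KH.perLe_toReal E _ hp)).trans (le_of_eq ?_)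
    rw [ENNReal.ofReal_mul (by positivity), ENNReal.ofReal_toReal hp]

end Pool.Agent.Q155.IB
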