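import Pool.Agent.Q155.IB.Sqrt
import Pool.Agent.Y211.PV.Iso
import Pool.Agent.Y506.PV.Mom
import Pool.Agent.Y506.PV.Cc
import Pool.Agent.Y506.RG.Fnl
import Pool.Agent.TH594.KP.Defs

/-!
# Concentration for all linear images of invariant log-concave weights
-/

set_option autoImplicit false

namespace Pool.Agent.Q155.IB

open MeasureTheory Set Filter Topology
open scoped ENNReal InnerProductSpace
open Pool.Agent.W695.KH (Eu)
open Pool.Agent.Y506.RG (EW VW Adm EW_aff EW_const_mul pm pm_prob pm_int pm_integrable lint_w)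
open Pool.Agent.Y506.PV (CcW LCn cc_of cc_aff)
open Pool.Agent.Y211.PV (SS VW_mat VW_ne)
open Pool.Agent.H212R2.KLS (mu)

/-- the variance inequality for Lipschitz functions and log-concave densities which are invariant
under the isometries in `G` and have a covariance of norm at most one -/
def KL {κ : Type} [Fintype κ] (G : Set (EuclideanSpace ℝ κ ≃ₗᵢ[ℝ] EuclideanSpace ℝ κ)) (C : ℝ) :
    Prop :=
  ∀ ρ : EuclideanSpace ℝ κ → ℝ, Pool.Agent.TH594.KP.GD G ρ → mu ρ univ = 1 →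
  (∀ θ : EuclideanSpace ℝ κ, ProbabilityTheory.evariance (fun x => ⟪θ, x⟫_ℝ) (mu ρ) ≤
    ENNReal.ofReal (‖θ‖ ^ 2)) →
  ∀ f : EuclideanSpace ℝ κ → ℝ, ContDiff ℝ 1 f → (∃ B : ℝ, ∀ x, |f x| ≤ B) →
  (∀ x, ‖fderiv ℝ f x‖ ≤ 1) → ProbabilityTheory.variance f (mu ρ) ≤ C

variable {n : ℕ}

theorem VW_aff (A : Eu (Fin n) ≃L[ℝ] Eu (Fin n)) (w w1 : Eu (Fin n) → ℝ)
    (hw : ∀ x, w x = w1 (A x)) (v : Eu (Fin n) → ℝ) :
    VW w1 v = VW w fun x => v (A x) := by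
  have h1 : ∀ u : Eu (Fin n) → ℝ, EW w u = EW w1 fun z => u (A.symm z + 0) :=
    EW_aff A 0 1 one_pos w w1 fun x => by rw [one_mul, sub_zero]; exact hw x
  unfold VW
  rw [h1, h1]
  simp only [add_zero, ContinuousLinearEquiv.apply_symm_apply]

/-- the covariance form commutes with the isometries which preserve the weight -/
theorem VW_inv {w : Eu (Fin n) → ℝ} (g : Eu (Fin n) ≃ₗᵢ[ℝ] Eu (Fin n))
    (hg : ∀ x, w (g x) = w x) (θ : Eu (Fin n)) :
    VW w (fun x => ⟪x, g θ⟫_ℝ) = VW w fun x => ⟪x, θ⟫_ℝ := by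
  have h1 := VW_aff g.toContinuousLinearEquiv w w (fun x => (hg x).symm) fun x => ⟪x, g θ⟫_ℝ
  rw [h1]
  have h2 : (fun x => ⟪g.toContinuousLinearEquiv x, g θ⟫_ℝ) = fun x => ⟪x, θ⟫_ℝ := by
    funext x
    exact g.inner_map_map x θ
  rw [h2]

/-- the covariance operator of an admissible weight -/
noncomputable def Sg (w : Eu (Fin n) → ℝ) : Eu (Fin n) →ₗ[ℝ] Eu (Fin n) :=
  Matrix.toEuclideanLin (SS w)

theorem Sg_quad {w : Eu (Fin n) → ℝ} (h : Adm w) (θ : Eu (Fin n)) :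
    ⟪Sg w θ, θ⟫_ℝ = VW w fun x => ⟪x, θ⟫_ℝ := by
  rw [VW_mat h, PiLp.inner_apply]
  unfold dotProduct
  refine Finset.sum_congr rfl fun i _ => ?_
  unfold Sg
  rw [Matrix.toLpLin_apply]
  simp

theorem Sg_symm (w : Eu (Fin n) → ℝ) : (Sg w).IsSymmetric := by
  unfold Sg
  rw [Matrix.isSymmetric_toEuclideanLin_iff]
  ext i j
  simp only [Matrix.conjTranspose_apply, star_trivial]
  unfold SS
  congr 1
  funext x
  ring

theorem Sg_pos {w : Eu (Fin n) → ℝ} (h : Adm w) (θ : Eu (Fin n)) (hθ : θ ≠ 0) :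
    0 < ⟪Sg w θ, θ⟫_ℝ := by
  rw [Sg_quad h]
  have h1 : 0 ≤ VW w fun x => ⟪x, θ⟫_ℝ := by
    rw [Pool.Agent.Y211.PV.VW_eq h]
    exact Pool.Agent.Y506.RG.EW_nonneg h _ fun _ => sq_nonneg _
  rcases h1.eq_or_lt with h2 | h2
  · exact absurd (VW_ne h θ h2.symm) hθ
  · exact h2

/-- variance under the normalised measure -/
theorem var_pm {w : Eu (Fin n) → ℝ} (h : Adm w) (v : Eu (Fin n) → ℝ) (hv : Measurable v) (B : ℝ)
    (hb : ∀ x, v x ^ 2 ≤ B * (1 + ‖x‖ ^ 2)) : MemLp v 2 (pm w) ∧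
    ProbabilityTheory.variance v (pm w) = VW w v := by
  have hpr := pm_prob h
  have h2 : MemLp v 2 (pm w) := by
    rw [memLp_two_iff_integrable_sq hv.aestronglyMeasurable]
    refine pm_integrable h _ (h.of_bd _ (hv.pow_const 2) B fun x => ?_)
    rw [abs_of_nonneg (sq_nonneg _)]
    exact hb x
  refine ⟨h2, ?_⟩
  rw [ProbabilityTheory.variance_eq_sub h2, pm_int h, pm_int h]
  rfl

/-- the normalised measure as a measure with density -/
theorem pm_mu {w : Eu (Fin n) → ℝ} (h : Adm w) : pm w = mu fun x => w x / ∫ y, w y := by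
  unfold pm mu
  rw [lint_w h]
  have hm : Measurable fun x => ENNReal.ofReal (w x) := ENNReal.measurable_ofReal.comp h.meas
  rw [← withDensity_smul _ hm]
  congr 1
  funext x
  rw [Pi.smul_apply, smul_eq_mul, ← ENNReal.ofReal_inv_of_pos h.pos,
    ← ENNReal.ofReal_mul (inv_nonneg.2 h.pos.le)]
  simp only
  rw [div_eq_inv_mul]

/-- **Concentration for all linear images of invariant weights.** -/
theorem cc_kl {C : ℝ} (G : Set (Eu (Fin n) ≃ₗᵢ[ℝ] Eu (Fin n))) (hG : KL G C) (w : Eu (Fin n) → ℝ)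
    (hA : Adm w) (hlc : LCn w) (hinv : ∀ g ∈ G, ∀ x, w (g x) = w x) (l : ℝ) (hl : 0 < l) :
    CcW l (C * l ^ 2) w := by
  obtain ⟨R, hR1, hR2, hR3⟩ := exists_sqrt (Sg w) (Sg_symm w) fun x hx => Sg_pos hA x hx
  obtain ⟨w1, hw1⟩ : ∃ w1 : Eu (Fin n) → ℝ, w1 = fun y => w (R y) := ⟨_, rfl⟩
  have hww : ∀ x, w x = w1 (R.symm x) := fun x => by
    rw [hw1]
    simp
  have hcomm : ∀ g ∈ G, ∀ x, R (g x) = g (R x) := by
    intro g hg x
    refine (hR3 g.toLinearEquiv.toLinearMap (fun y => ?_) x).symm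
    refine comm_of_quad (Sg w) (Sg_symm w) g (fun z => ?_) y
    rw [Sg_quad hA, Sg_quad hA]
    exact VW_inv g (hinv g hg) z
  -- admissibility of the isotropic weight
  have hnn : ∀ x, 0 ≤ w1 x := fun x => by rw [hw1]; exact hA.nonneg _
  have hmeas : Measurable w1 := by
    rw [hw1]
    exact hA.meas.comp R.continuous.measurable
  have hlc1 : LCn w1 := by
    intro x y t h0 h1
    rw [hw1]
    simp only [map_add, map_smul]
    exact hlc _ _ t h0 h1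
  have hpos : 0 < ∫ x, w1 x := by
    obtain ⟨κ, hκ, H⟩ := Pool.Agent.Y506.RG.int_lin R
    rw [hw1, H]
    exact mul_pos hκ hA.pos
  have hA1 : Adm w1 := ⟨hnn, Pool.Agent.Y506.PV.int_moment hnn hmeas hlc1 hpos, hpos, hmeas⟩
  -- isotropy
  have hRs : ∀ x y, ⟪R.symm x, y⟫_ℝ = ⟪x, R.symm y⟫_ℝ := by
    intro x y
    have h1 := hR1 (R.symm x) (R.symm y)
    rw [ContinuousLinearEquiv.apply_symm_apply, ContinuousLinearEquiv.apply_symm_apply] at h1
    exact h1.symm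
  have hiso : ∀ θ : Eu (Fin n), VW w1 (fun x => ⟪θ, x⟫_ℝ) = ‖θ‖ ^ 2 := by
    intro θ
    rw [VW_aff R.symm w w1 hww]
    have e1 : (fun x => ⟪θ, R.symm x⟫_ℝ) = fun x => ⟪x, R.symm θ⟫_ℝ := by
      funext x
      rw [← hRs, real_inner_comm]
    rw [e1, ← Sg_quad hA, ← hR2, hR1, ContinuousLinearEquiv.apply_symm_apply,
      real_inner_self_eq_norm_sq]
  -- the invariant density
  obtain ⟨Z, hZ⟩ : ∃ Z : ℝ, Z = ∫ y, w1 y := ⟨_, rfl⟩
  have hZ0 : 0 < Z := by rw [hZ]; exact hpos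
  have hGD : Pool.Agent.TH594.KP.GD G fun x => w1 x / Z := by
    refine ⟨fun x => div_nonneg (hnn x) hZ0.le, hmeas.div_const Z, fun x y t h0 h1 => ?_,
      fun g hg x => ?_⟩
    · rw [Real.div_rpow (hnn x) hZ0.le, Real.div_rpow (hnn y) hZ0.le, div_mul_div_comm,
        ← Real.rpow_add hZ0, sub_add_cancel, Real.rpow_one]
      exact div_le_div_of_nonneg_right (hlc1 x y t h0 h1) hZ0.le
    · rw [hw1]
      simp only
      rw [hcomm g hg, hinv g hg]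
  have hmu : pm w1 = mu fun x => w1 x / Z := by
    rw [hZ]
    exact pm_mu hA1
  have hprob := pm_prob hA1
  have key := hG (fun x => w1 x / Z) hGD (by rw [← hmu]; exact hprob.measure_univ) (fun θ => by
    rw [← hmu]
    obtain ⟨h1, h2⟩ := var_pm hA1 (fun x => ⟪θ, x⟫_ℝ) (by fun_prop) (‖θ‖ ^ 2) (fun x => by
      have h3 := abs_real_inner_le_norm θ x
      rw [← sq_abs]
      calc |⟪θ, x⟫_ℝ| ^ 2 ≤ (‖θ‖ * ‖x‖) ^ 2 := pow_le_pow_left₀ (abs_nonneg _) h3 2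
        _ = ‖θ‖ ^ 2 * ‖x‖ ^ 2 := by ring
        _ ≤ ‖θ‖ ^ 2 * (1 + ‖x‖ ^ 2) := by nlinarith [sq_nonneg ‖θ‖])
    rw [← h1.ofReal_variance_eq, h2, hiso])
  -- Lipschitz functions
  have hconc : ∀ v : Eu (Fin n) → ℝ, ContDiff ℝ 1 v → (∀ x, |v x| ≤ 1) →
      (∀ x, ‖fderiv ℝ v x‖ ≤ l) → VW w1 v ≤ C * l ^ 2 := by
    intro v hv hb hvl
    have h1 := key (fun x => l⁻¹ * v x) (contDiff_const.mul hv) ⟨l⁻¹, fun x => by
      rw [abs_mul, abs_of_pos (inv_pos.2 hl)]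
      calc l⁻¹ * |v x| ≤ l⁻¹ * 1 := mul_le_mul_of_nonneg_left (hb x) (inv_pos.2 hl).le
        _ = l⁻¹ := mul_one _⟩ (fun x => by
      have h2 : fderiv ℝ (fun x => l⁻¹ * v x) x = l⁻¹ • fderiv ℝ v x :=
        fderiv_const_mul (hv.differentiable one_ne_zero x) l⁻¹
      rw [h2, norm_smul, Real.norm_eq_abs, abs_of_pos (inv_pos.2 hl)]
      calc l⁻¹ * ‖fderiv ℝ v x‖ ≤ l⁻¹ * l := mul_le_mul_of_nonneg_left (hvl x) (inv_pos.2 hl).le
        _ = 1 := inv_mul_cancel₀ hl.ne')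
    rw [← hmu] at h1
    obtain ⟨-, h4⟩ := var_pm hA1 (fun x => l⁻¹ * v x)
      (measurable_const.mul hv.continuous.measurable) ((l⁻¹) ^ 2) (fun x => by
        have h5 : v x ^ 2 ≤ 1 := by
          rw [← sq_abs]
          exact pow_le_one₀ (abs_nonneg _) (hb x)
        calc (l⁻¹ * v x) ^ 2 = (l⁻¹) ^ 2 * v x ^ 2 := by ring
          _ ≤ (l⁻¹) ^ 2 * 1 := mul_le_mul_of_nonneg_left h5 (sq_nonneg _)
          _ ≤ (l⁻¹) ^ 2 * (1 + ‖x‖ ^ 2) :=
            mul_le_mul_of_nonneg_left (by nlinarith [sq_nonneg ‖x‖]) (sq_nonneg _))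
    rw [h4, Pool.Agent.Y506.RG.VW_const_mul] at h1
    have h6 : (l⁻¹) ^ 2 * VW w1 v * l ^ 2 ≤ C * l ^ 2 :=
      mul_le_mul_of_nonneg_right h1 (sq_nonneg l)
    have h7 : (l⁻¹) ^ 2 * VW w1 v * l ^ 2 = VW w1 v := by
      field_simp
    rw [h7] at h6
    exact h6
  have hcc : CcW (l * Real.sqrt 1) (C * l ^ 2) w1 :=
    cc_of 1 l (C * l ^ 2) one_pos (fun θ hθ => by rw [hiso, hθ]; norm_num) hconc
  rw [Real.sqrt_one, mul_one] at hcc
  exact cc_aff R.symm 0 1 one_pos w w1 (fun x => by rw [one_mul, sub_zero]; exact hww x) hA1 hcc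

end Pool.Agent.Q155.IB
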