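import Pool.Agent.Q155.IB.Cls
import Pool.Agent.Q155.IB.Cls3

/-!
# Large groups of isometries

Groups for which the variance inequality is known: permutations of particles within species,
automorphisms of trees, rotations of tuples of matrices and vectors, simultaneous conjugations of tuples
of Hermitian matrices.
-/

set_option autoImplicit false

namespace Pool.Agent.Q155.IB.Large

open MeasureTheory Set
open scoped ENNReal InnerProductSpace Matrix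

/-! ### particles -/

/-- The permutations of `N` particles in `ℝ^d` within their species (`b i` is the species of the
particle `i`), as isometries of the space `ℝ^κ` of configurations; `e` labels the coordinates:
`e.symm (i, α)` is the index of the coordinate `α` of the particle `i`. -/
def speciesGroup {κ : Type} [Fintype κ] {N d q : ℕ} (b : Fin N → Fin q)
    (e : κ ≃ Fin N × Fin d) : Set (EuclideanSpace ℝ κ ≃ₗᵢ[ℝ] EuclideanSpace ℝ κ) :=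
  {g | ∃ σ : Equiv.Perm (Fin N), (∀ i, b (σ i) = b i) ∧
    ∀ x i α, g x (e.symm (i, α)) = x (e.symm (σ i, α))}

/-! ### trees -/

/-- The leaves of the rooted tree of depth `k` in which every node of level `j` has `m j` children:
a leaf is the sequence of the choices of a child at the levels `0, …, k - 1`. -/
abbrev Leaf {k : ℕ} (m : Fin k → ℕ) : Type := (j : Fin k) → Fin (m j)

/-- Automorphisms of the tree, as permutations of the leaves: for every level `l`, two leaves have the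
same ancestor of level `l` if and only if their images do. -/
def IsAut {k : ℕ} (m : Fin k → ℕ) (ψ : Equiv.Perm (Leaf m)) : Prop :=
  ∀ (l : ℕ) (x y : Leaf m), (∀ j : Fin k, j.val < l → x j = y j) ↔
    (∀ j : Fin k, j.val < l → ψ x j = ψ y j)

/-- The automorphisms of the tree, as isometries of the space `ℝ^κ` of functions on the leaves; the
bijection `e` labels the coordinates. -/
def treeGroup {κ : Type} [Fintype κ] {k : ℕ} (m : Fin k → ℕ) (e : κ ≃ Leaf m) :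
    Set (EuclideanSpace ℝ κ ≃ₗᵢ[ℝ] EuclideanSpace ℝ κ) :=
  {g | ∃ ψ : Equiv.Perm (Leaf m), IsAut m ψ ∧ ∀ x p, g x (e.symm p) = x (e.symm (ψ p))}

/-- the number `m_0 ⋯ m_{j-1}` of the nodes of level `j` -/
noncomputable def nodes {k : ℕ} (m : Fin k → ℕ) (j : Fin k) : ℝ :=
  ∏ i ∈ Finset.univ.filter (fun i => i < j), (m i : ℝ)

/-- the factor `∏_j (1 + log N_j / m_j)²`, `N_j = m_0 ⋯ m_{j-1}` -/
noncomputable def factor {k : ℕ} (m : Fin k → ℕ) : ℝ :=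
  ∏ j, (1 + Real.log (nodes m j) / m j) ^ 2

/-! ### tuples of matrices and vectors -/

/-- tuples of `q` real `N × N` matrices and `m` vectors of `ℝ^N`, with the Euclidean
(Hilbert-Schmidt) structure -/
abbrev Tup (q m N : ℕ) : Type := EuclideanSpace ℝ ((Fin q × (Fin N × Fin N)) ⊕ (Fin m × Fin N))

/-- the matrix `X_j` of the tuple `x` -/
def mat {q m N : ℕ} (j : Fin q) (x : Tup q m N) : Matrix (Fin N) (Fin N) ℝ :=
  Matrix.of fun a b => x (Sum.inl (j, (a, b)))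

/-- the vector `v_i` of the tuple `x` -/
def vec {q m N : ℕ} (i : Fin m) (x : Tup q m N) : Fin N → ℝ := fun a => x (Sum.inr (i, a))

/-- `g` is a rotation: `g ∈ SO(N)` -/
def Rotation {N : ℕ} (g : Matrix (Fin N) (Fin N) ℝ) : Prop := g * gᵀ = 1 ∧ g.det = 1

/-- `y` is the tuple `x` rotated by `g`: `X_j ↦ g X_j gᵀ`, `v_i ↦ g v_i` -/
def Rotated {q m N : ℕ} (g : Matrix (Fin N) (Fin N) ℝ) (x y : Tup q m N) : Prop :=
  (∀ j, mat j y = g * mat j x * gᵀ) ∧ ∀ i, vec i y = g *ᵥ vec i x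

/-- `ι` is a linear isometry of the Euclidean space `ℝ^κ` onto a linear subspace of the space of
tuples which is invariant under the rotations. -/
def InvSubspace {κ : Type} [Fintype κ] {q m N : ℕ} (ι : EuclideanSpace ℝ κ →ₗᵢ[ℝ] Tup q m N) :
    Prop :=
  ∀ g : Matrix (Fin N) (Fin N) ℝ, Rotation g → ∀ x, ∃ y, Rotated g (ι x) (ι y)

/-- the rotations, acting on the invariant subspace `ι(ℝ^κ)` of the space of tuples -/
def rotationGroup {κ : Type} [Fintype κ] {q m N : ℕ} (ι : EuclideanSpace ℝ κ →ₗᵢ[ℝ] Tup q m N) :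
    Set (EuclideanSpace ℝ κ ≃ₗᵢ[ℝ] EuclideanSpace ℝ κ) :=
  {g | ∃ h : Matrix (Fin N) (Fin N) ℝ, Rotation h ∧ ∀ x, Rotated h (ι x) (ι (g x))}

/-! ### tuples of Hermitian matrices -/

/-- `Φ` is a linear isometry of the Euclidean space `ℝ^ι` onto the real vector space of Hermitian
`N × N` matrices over `𝕜` with the Hilbert-Schmidt norm. -/
structure HermFrame {𝕜 : Type} [RCLike 𝕜] {N : ℕ} {ι : Type} [Fintype ι]
    (Φ : EuclideanSpace ℝ ι →ₗ[ℝ] Matrix (Fin N) (Fin N) 𝕜) : Prop where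
  herm : ∀ x, (Φ x)ᴴ = Φ x
  surj : ∀ A : Matrix (Fin N) (Fin N) 𝕜, Aᴴ = A → ∃ x, Φ x = A
  iso : ∀ x, ∑ i, ∑ j, ‖Φ x i j‖ ^ 2 = ‖x‖ ^ 2

/-- the `j`-th component of a `q`-tuple `x ∈ ℝ^κ` of vectors of `ℝ^ι`; `e` labels the coordinates -/
def comp {κ ι : Type} {q : ℕ} (e : κ ≃ Fin q × ι) (j : Fin q) (x : EuclideanSpace ℝ κ) :
    EuclideanSpace ℝ ι :=
  WithLp.toLp 2 fun i => x (e.symm (j, i))

/-- the simultaneous conjugations `X_j ↦ U X_j Uᴴ` of `q`-tuples of Hermitian matrices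
`X_j = Φ (comp e j x)` by unitary (orthogonal if `𝕜 = ℝ`) matrices `U` -/
def conjGroup {κ : Type} [Fintype κ] {𝕜 : Type} [RCLike 𝕜] {N q : ℕ} {ι : Type} [Fintype ι]
    (e : κ ≃ Fin q × ι) (Φ : EuclideanSpace ℝ ι →ₗ[ℝ] Matrix (Fin N) (Fin N) 𝕜) :
    Set (EuclideanSpace ℝ κ ≃ₗᵢ[ℝ] EuclideanSpace ℝ κ) :=
  {g | ∃ U ∈ Matrix.unitaryGroup (Fin N) 𝕜, ∀ x j, Φ (comp e j (g x)) = U * Φ (comp e j x) * Uᴴ}

/-! ### the classes of groups -/

/-- particles in dimension at most `Λ`, at most `Λ` species -/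
def Species {κ : Type} [Fintype κ] (Λ : ℕ)
    (G : Set (EuclideanSpace ℝ κ ≃ₗᵢ[ℝ] EuclideanSpace ℝ κ)) : Prop :=
  ∃ (N d q : ℕ) (b : Fin N → Fin q) (e : κ ≃ Fin N × Fin d), 1 ≤ d ∧ d ≤ Λ ∧ 1 ≤ q ∧ q ≤ Λ ∧
    Function.Surjective b ∧ G = speciesGroup b e

/-- trees of depth at most `Λ` with `∏_j (1 + log N_j / m_j)² ≤ Λ` -/
def Tree {κ : Type} [Fintype κ] (Λ : ℕ)
    (G : Set (EuclideanSpace ℝ κ ≃ₗᵢ[ℝ] EuclideanSpace ℝ κ)) : Prop :=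
  ∃ (k : ℕ) (m : Fin k → ℕ) (e : κ ≃ Leaf m), 1 ≤ k ∧ k ≤ Λ ∧ (∀ j, 1 ≤ m j) ∧
    factor m ≤ Λ ∧ G = treeGroup m e

/-- rotations in any dimension `N ≥ 3`, tuples of at most `Λ` real matrices and vectors -/
def Rotations {κ : Type} [Fintype κ] (Λ : ℕ)
    (G : Set (EuclideanSpace ℝ κ ≃ₗᵢ[ℝ] EuclideanSpace ℝ κ)) : Prop :=
  ∃ (q m N : ℕ) (ι : EuclideanSpace ℝ κ →ₗᵢ[ℝ] Tup q m N), 3 ≤ N ∧ q + m ≤ Λ ∧
    InvSubspace ι ∧ G = rotationGroup ι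

/-- simultaneous conjugation of at most `Λ` Hermitian `N × N` matrices over `ℝ` or `ℂ`, any `N ≥ 3` -/
def Conjugations {κ : Type} [Fintype κ] (Λ : ℕ)
    (G : Set (EuclideanSpace ℝ κ ≃ₗᵢ[ℝ] EuclideanSpace ℝ κ)) : Prop :=
  ∃ (𝕜 : Type) (_ : RCLike 𝕜) (N q : ℕ) (ι : Type) (_ : Fintype ι) (e : κ ≃ Fin q × ι)
    (Φ : EuclideanSpace ℝ ι →ₗ[ℝ] Matrix (Fin N) (Fin N) 𝕜), 3 ≤ N ∧ 1 ≤ q ∧ q ≤ Λ ∧
    HermFrame Φ ∧ G = conjGroup e Φ

/-! ### comparison with the groups of the starting modules -/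

theorem KL2.anti {κ : Type} [Fintype κ]
    {G G' : Set (EuclideanSpace ℝ κ ≃ₗᵢ[ℝ] EuclideanSpace ℝ κ)} {C : ℝ} (hG : G' ⊆ G)
    (h : KL2 G' C) : KL2 G C :=
  fun ρ hρ => h ρ ⟨hρ.nonneg, hρ.meas, hρ.logc, fun g hg => hρ.inv g (hG hg)⟩

/-- relabelling of the coordinates -/
noncomputable def rel {κ κ' : Type} [Fintype κ] [Fintype κ'] (e : κ ≃ κ') :
    EuclideanSpace ℝ κ' ≃ₗᵢ[ℝ] EuclideanSpace ℝ κ :=
  LinearIsometryEquiv.piLpCongrLeft 2 ℝ ℝ e.symm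

theorem rel_apply {κ κ' : Type} [Fintype κ] [Fintype κ'] (e : κ ≃ κ')
    (x : EuclideanSpace ℝ κ') (p : κ') : rel e x (e.symm p) = x p := by
  unfold rel
  simp [LinearIsometryEquiv.piLpCongrLeft_apply, Equiv.piCongrLeft'_apply]

theorem rel_symm {κ κ' : Type} [Fintype κ] [Fintype κ'] (e : κ ≃ κ')
    (x : EuclideanSpace ℝ κ) (p : κ') : (rel e).symm x p = x (e.symm p) := by
  have h := rel_apply e ((rel e).symm x) p
  rw [LinearIsometryEquiv.apply_symm_apply] at h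
  exact h.symm

theorem species_sub {κ : Type} [Fintype κ] {N d q : ℕ} (b : Fin N → Fin q)
    (e : κ ≃ Fin N × Fin d) :
    tr (rel e) (Pool.Agent.TH594.KP.GG (Fin d) b) ⊆ speciesGroup b e := by
  rintro h ⟨g, ⟨k, l, hkl, rfl⟩, rfl⟩
  refine ⟨Equiv.swap k l, Pool.Agent.TH594.KP.swap_fix hkl, fun x i α => ?_⟩
  show rel e (Pool.Agent.TH594.KP.swp k l ((rel e).symm x)) (e.symm (i, α)) = _
  rw [rel_apply, Pool.Agent.TH594.KP.swp_apply, rel_symm]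

theorem tree_sub {κ : Type} [Fintype κ] {k : ℕ} (m : Fin k → ℕ) (e : κ ≃ Leaf m) :
    tr (rel e) (Pool.Agent.TH597.HX.Fin'.AG m) ⊆ treeGroup m e := by
  rintro h ⟨g, ⟨ψ, hψ, rfl⟩, rfl⟩
  refine ⟨ψ.symm, Pool.Agent.TH597.HX.Tr.aut_symm hψ, fun x p => ?_⟩
  show rel e (Pool.Agent.TH597.HX.Wr.pm ψ ((rel e).symm x)) (e.symm p) = _
  rw [rel_apply, Pool.Agent.TH597.HX.Wr.pm_apply, rel_symm]

theorem rot_iff {N : ℕ} (g : Matrix (Fin N) (Fin N) ℝ) :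
    Rotation g ↔ Pool.Agent.TH591.TT.IsSO g := by
  constructor
  · rintro ⟨h1, h2⟩
    exact ⟨(Matrix.mem_orthogonalGroup_iff (Fin N) ℝ).2 h1, h2⟩
  · rintro ⟨h1, h2⟩
    exact ⟨Pool.Agent.TH591.TT.orth1 h1, h2⟩

theorem act_iff {q m N : ℕ} (g : Matrix (Fin N) (Fin N) ℝ) (x y : Tup q m N) :
    Rotated g x y ↔ y = Pool.Agent.TH591.TT.RR g x := by
  constructor
  · rintro ⟨h1, h2⟩
    refine Pool.Agent.TH591.TT.ext_mv h1 ?_
    ext a i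
    exact congrFun (h2 i) a
  · intro h1
    subst h1
    exact ⟨fun j => rfl, fun i => rfl⟩

theorem inv_sub {κ : Type} [Fintype κ] {q m N : ℕ} {ι : EuclideanSpace ℝ κ →ₗᵢ[ℝ] Tup q m N}
    (hι : InvSubspace ι) : Pool.Agent.TH591.TT.InvR ι := by
  intro g hg x
  obtain ⟨y, hy⟩ := hι g ((rot_iff g).2 hg) x
  exact ⟨y, (act_iff g _ _).1 hy⟩

theorem rot_sub {κ : Type} [Fintype κ] {q m N : ℕ} (ι : EuclideanSpace ℝ κ →ₗᵢ[ℝ] Tup q m N) :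
    Pool.Agent.TH591.TT.GS ι ⊆ rotationGroup ι := by
  rintro e ⟨g, hg, he⟩
  exact ⟨g, (rot_iff g).2 hg, fun x => (act_iff g _ _).2 (he x)⟩

theorem rot_fac {q m N : ℕ} (hN : 3 ≤ N) :
    Pool.Agent.TH591.TT.fac q m N ≤ ((q : ℝ) + 1) ^ 2 * (1 + (q + m)) ^ 2 := by
  unfold Pool.Agent.TH591.TT.fac
  have hN1 : (1 : ℝ) ≤ N := by exact_mod_cast (by omega : 1 ≤ N)
  have h0 : (0 : ℝ) ≤ (q : ℝ) + m := by positivity
  have h1 : ((q : ℝ) + m) / N ≤ q + m := div_le_self h0 hN1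
  refine mul_le_mul_of_nonneg_left ?_ (by positivity)
  refine pow_le_pow_left₀ (by positivity) ?_ 2
  linarith

theorem conj_sub {κ : Type} [Fintype κ] {𝕜 : Type} [RCLike 𝕜] {N q : ℕ} {ι : Type} [Fintype ι]
    (e : κ ≃ Fin q × ι) {Φ : EuclideanSpace ℝ ι →ₗ[ℝ] Matrix (Fin N) (Fin N) 𝕜}
    (hΦ : Pool.Agent.H888R2.KC.Fr Φ) : tr (rel e) (CG q Φ) ⊆ conjGroup e Φ := by
  rintro h ⟨g, ⟨U, hU, hg⟩, rfl⟩
  refine ⟨U, hU, fun x j => ?_⟩
  obtain ⟨y, hy⟩ : ∃ y, y = (rel e).symm x := ⟨_, rfl⟩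
  have e1 : comp e j x = Pool.Agent.H888R2.KT.cp j y := by
    rw [hy]
    ext i
    exact (rel_symm e x (j, i)).symm
  have e2 : comp e j (((rel e).symm.trans g).trans (rel e) x) =
      Pool.Agent.H888R2.KT.cp j (g y) := by
    rw [hy]
    ext i
    exact rel_apply e (g ((rel e).symm x)) (j, i)
  have h1 : Pool.Agent.H888R2.KT.cp j (Pool.Agent.H888R2.KT.di q
      (Pool.Agent.H888R2.KC.cj Φ U) y) =
      Pool.Agent.H888R2.KC.cj Φ U (Pool.Agent.H888R2.KT.cp j y) :=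
    Pool.Agent.H888R2.KT.C1bx.cp_di _ y j
  have h2 := Pool.Agent.H888R2.KC.Phi_cj hΦ U (Pool.Agent.H888R2.KT.cp j y)
  rw [← h1, ← hg] at h2
  rw [e1, e2]
  exact h2

/-! ### the variance inequality -/

theorem kl_species (Λ : ℕ) : ∃ C : ℝ, 0 < C ∧ ∀ (κ : Type) [Fintype κ]
    (G : Set (EuclideanSpace ℝ κ ≃ₗᵢ[ℝ] EuclideanSpace ℝ κ)), Species Λ G → KL2 G C := by
  obtain ⟨C, hC, H⟩ := kl2_part
  refine ⟨C * (Λ * (Λ : ℝ) ^ 4 * (1 + Real.log (Λ + 1)) ^ 2) + 1, ?_, ?_⟩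
  · have h0 : 0 ≤ Real.log ((Λ : ℝ) + 1) := Real.log_nonneg (by
      have : (0 : ℝ) ≤ Λ := Nat.cast_nonneg _
      linarith)
    positivity
  rintro κ _ G ⟨N, d, q, b, e, hd, hdΛ, hq, hqΛ, hb, rfl⟩
  refine KL2.anti (species_sub b e) (kl2_tr (rel e) _ ((H N d q b hb hd hq).mono ?_))
  have hd1 : (d : ℝ) ≤ Λ := by exact_mod_cast hdΛ
  have hq1 : (q : ℝ) ≤ Λ := by exact_mod_cast hqΛ
  have hq2 : (1 : ℝ) ≤ q := by exact_mod_cast hq
  have hl0 : 0 ≤ Real.log q := Real.log_nonneg hq2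
  have hl : Real.log q ≤ Real.log (Λ + 1) := Real.log_le_log (by linarith) (by linarith)
  have h1 : Pool.Agent.TH594.KP.fac q d ≤ Λ * (Λ : ℝ) ^ 4 * (1 + Real.log (Λ + 1)) ^ 2 := by
    unfold Pool.Agent.TH594.KP.fac
    have hΛ : (0 : ℝ) ≤ Λ := Nat.cast_nonneg _
    have a1 : (d : ℝ) ^ 4 ≤ (Λ : ℝ) ^ 4 := pow_le_pow_left₀ (Nat.cast_nonneg _) hd1 4
    have a2 : (1 + Real.log q) ^ 2 ≤ (1 + Real.log (Λ + 1)) ^ 2 :=
      pow_le_pow_left₀ (by linarith) (by linarith) 2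
    exact mul_le_mul (mul_le_mul hq1 a1 (by positivity) hΛ) a2 (by positivity) (by positivity)
  have h2 := mul_le_mul_of_nonneg_left h1 hC.le
  linarith

theorem kl_tree (Λ : ℕ) : ∃ C : ℝ, 0 < C ∧ ∀ (κ : Type) [Fintype κ]
    (G : Set (EuclideanSpace ℝ κ ≃ₗᵢ[ℝ] EuclideanSpace ℝ κ)), Tree Λ G → KL2 G C := by
  obtain ⟨C, hC, H⟩ := kl2_tree
  refine ⟨(max C 1) ^ (Λ ^ 2) * (Λ + 1), by positivity, ?_⟩
  rintro κ _ G ⟨k, m, e, hk, hkΛ, hm, hF, rfl⟩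
  refine KL2.anti (tree_sub m e) (kl2_tr (rel e) _ ((H k m hk hm).mono ?_))
  have h1 : C ^ (k ^ 2) ≤ (max C 1) ^ (Λ ^ 2) :=
    (pow_le_pow_left₀ hC.le (le_max_left _ _) _).trans
      (pow_le_pow_right₀ (le_max_right _ _) (Nat.pow_le_pow_left hkΛ 2))
  have h2 : Pool.Agent.TH597.HX.Tr.F m ≤ Λ + 1 := by
    have : Pool.Agent.TH597.HX.Tr.F m = factor m := rfl
    rw [this]
    linarith
  have h3 : 0 ≤ Pool.Agent.TH597.HX.Tr.F m :=
    zero_le_one.trans (Pool.Agent.TH597.HX.Tr.F_one hm)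
  exact mul_le_mul h1 h2 h3 (by positivity)

theorem kl_rot (Λ : ℕ) : ∃ C : ℝ, 0 < C ∧ ∀ (κ : Type) [Fintype κ]
    (G : Set (EuclideanSpace ℝ κ ≃ₗᵢ[ℝ] EuclideanSpace ℝ κ)), Rotations Λ G → KL2 G C := by
  obtain ⟨C, hC, H⟩ := kl2_rot
  refine ⟨C * (((Λ : ℝ) + 1) ^ 2 * (1 + Λ) ^ 2), by positivity, ?_⟩
  rintro κ _ G ⟨q, m, N, ι, hN, hΛ, hι, rfl⟩
  refine KL2.anti (rot_sub ι) ((H hN ι (inv_sub hι)).mono ?_)
  refine mul_le_mul_of_nonneg_left ((rot_fac hN).trans ?_) hC.le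
  have h1 : (q : ℝ) + m ≤ Λ := by exact_mod_cast hΛ
  have h2 : (0 : ℝ) ≤ q := Nat.cast_nonneg _
  have h3 : (0 : ℝ) ≤ m := Nat.cast_nonneg _
  exact mul_le_mul (pow_le_pow_left₀ (by linarith) (by linarith) 2)
    (pow_le_pow_left₀ (by linarith) (by linarith) 2) (by positivity) (by positivity)

theorem kl_conj (Λ : ℕ) : ∃ C : ℝ, 0 < C ∧ ∀ (κ : Type) [Fintype κ]
    (G : Set (EuclideanSpace ℝ κ ≃ₗᵢ[ℝ] EuclideanSpace ℝ κ)), Conjugations Λ G → KL2 G C := by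
  obtain ⟨C, hC, H⟩ := kl2_conj
  refine ⟨C * ((Λ : ℝ) + 1) ^ 4, by positivity, ?_⟩
  rintro κ _ G ⟨𝕜, _, N, q, ι, _, e, Φ, hN, hq, hqΛ, hΦ', rfl⟩
  have hΦ : Pool.Agent.H888R2.KC.Fr Φ := ⟨hΦ'.herm, hΦ'.surj, hΦ'.iso⟩
  refine KL2.anti (conj_sub e hΦ) (kl2_tr (rel e) _ ((H hΦ hN hq).mono ?_))
  have h1 : (q : ℝ) ≤ Λ := by exact_mod_cast hqΛ
  exact mul_le_mul_of_nonneg_left (pow_le_pow_left₀ (Nat.cast_nonneg _) (by linarith) 4) hC.le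

theorem set_inv {κ : Type} [Fintype κ]
    {G : Set (EuclideanSpace ℝ κ ≃ₗᵢ[ℝ] EuclideanSpace ℝ κ)} {K : Set (EuclideanSpace ℝ κ)}
    (h : ∀ g ∈ G, g '' K = K) : ∀ g ∈ G, ∀ x, g x ∈ K ↔ x ∈ K := by
  intro g hg x
  constructor
  · intro hx
    rw [← h g hg] at hx
    obtain ⟨y, hy, hxy⟩ := hx
    rwa [← g.injective hxy]
  · intro hx
    rw [← h g hg]
    exact ⟨x, hx, rfl⟩

end Pool.Agent.Q155.IB.Large
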