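import Pool.Agent.Q155.IB.Lin
import Pool.Agent.Q155.IB.Che

/-!
# All linear images: laws
-/

set_option autoImplicit false

namespace Pool.Agent.Q155.IB

open MeasureTheory Set Filter Topology
open scoped ENNReal InnerProductSpace
open Pool.Agent.W695.KH (Eu)
open Pool.Agent.Y506.RG (EW VW Adm pm pm_prob pm_int Star)
open Pool.Agent.Y506.PV (LCn ind adm_ind vol_pos)
open Pool.Agent.H212R2.KLS (mu)

/-- **All linear images of invariant log-concave measures.** -/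
theorem law_kl {κ : Type} [Fintype κ] {C : ℝ}
    (G : Set (EuclideanSpace ℝ κ ≃ₗᵢ[ℝ] EuclideanSpace ℝ κ)) (hG : KL2 G C)
    (ρ : EuclideanSpace ℝ κ → ℝ) (hρ : Pool.Agent.TH594.KP.GD G ρ) (h1 : mu ρ univ = 1) {k : ℕ}
    (L : EuclideanSpace ℝ κ →ₗ[ℝ] Eu (Fin k)) (μ : Measure (Eu (Fin k)))
    (hμ : μ = Measure.map L (mu ρ)) : IsProbabilityMeasure μ ∧ ∀ s : ℝ, 0 < s →
    (∀ θ : Eu (Fin k), ‖θ‖ = 1 → ProbabilityTheory.variance (fun y => ⟪y, θ⟫_ℝ) μ ≤ s) →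
    ∀ f : Eu (Fin k) → ℝ, ContDiff ℝ 1 f → (∀ y, ‖fderiv ℝ f y‖ ≤ 1) →
    MemLp f 2 μ ∧ ProbabilityTheory.variance f μ ≤ C * s := by
  have hprob : IsProbabilityMeasure (mu ρ) := ⟨h1⟩
  have hLm : Measurable L := L.continuous_of_finiteDimensional.measurable
  have hμp : IsProbabilityMeasure μ := by
    rw [hμ]
    exact Measure.isProbabilityMeasure_map hLm.aemeasurable
  refine ⟨hμp, fun s hs hvar f hf hL => ?_⟩
  let e : EuclideanSpace ℝ κ ≃ₗᵢ[ℝ] Eu (Fin (Fintype.card κ)) :=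
    LinearIsometryEquiv.piLpCongrLeft 2 ℝ ℝ (Fintype.equivFin κ)
  have hem : Measurable e := e.continuous.measurable
  obtain ⟨w, hw⟩ : ∃ w : Eu (Fin (Fintype.card κ)) → ℝ, w = fun x => ρ (e.symm x) := ⟨_, rfl⟩
  have hmw : mu w = Measure.map e (mu ρ) := by
    rw [hw]
    exact mu_comp e.symm ρ hρ.meas
  have hw1 : mu w univ = 1 := by
    rw [hmw, Measure.map_apply hem MeasurableSet.univ, preimage_univ]
    exact h1
  have hnn : ∀ x, 0 ≤ w x := fun x => by rw [hw]; exact hρ.nonneg _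
  have hmeas : Measurable w := by
    rw [hw]
    exact hρ.meas.comp e.symm.continuous.measurable
  have hlc : LCn w := by
    intro x y t h0 h1
    rw [hw]
    simp only [map_add, map_smul]
    exact hρ.logc _ _ t h0 h1
  have hlint : ∫⁻ x, ENNReal.ofReal (w x) = 1 := by
    have h2 := hw1
    unfold mu at h2
    rwa [withDensity_apply _ MeasurableSet.univ, Measure.restrict_univ] at h2
  have hint1 : ∫ x, w x = 1 := by
    rw [integral_eq_lintegral_of_nonneg_ae (Eventually.of_forall hnn) hmeas.aestronglyMeasurable,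
      hlint, ENNReal.toReal_one]
  have hA : Adm w := ⟨hnn, Pool.Agent.Y506.PV.int_moment hnn hmeas hlc (by rw [hint1]; exact
    one_pos), by rw [hint1]; exact one_pos, hmeas⟩
  have hpm : pm w = mu w := by
    rw [pm_mu hA, hint1]
    simp only [div_one]
  have hinv : ∀ h ∈ tr e G, ∀ x, w (h x) = w x := by
    rintro h ⟨g, hg, rfl⟩ x
    rw [hw]
    show ρ (e.symm (e (g (e.symm x)))) = ρ (e.symm x)
    rw [e.symm_apply_apply, hρ.inv g hg]
  obtain ⟨T, hT⟩ : ∃ T : Eu (Fin (Fintype.card κ)) →ₗ[ℝ] Eu (Fin k), ∀ x, T x = L (e.symm x) :=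
    ⟨L ∘ₗ e.symm.toLinearEquiv.toLinearMap, fun x => rfl⟩
  have hTc : Continuous T := T.continuous_of_finiteDimensional
  have hTm : Measurable T := hTc.measurable
  have hμT : μ = Measure.map T (pm w) := by
    rw [hpm, hmw, Measure.map_map hTm hem, hμ]
    congr 1
    funext x
    rw [Function.comp_apply, hT, e.symm_apply_apply]
  obtain ⟨T2, hT2⟩ : ∃ T2 : Eu (Fin (Fintype.card κ)) →L[ℝ] Eu (Fin k), ∀ x, T2 x = T x :=
    ⟨LinearMap.toContinuousLinearMap T, fun x => rfl⟩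
  have hvar' : ∀ θ : Eu (Fin k), ‖θ‖ = 1 → VW w (fun x => ⟪T x, θ⟫_ℝ) ≤ s := by
    intro θ hθ
    have h2 := hvar θ hθ
    have hm1 : Measurable fun y : Eu (Fin k) => ⟪y, θ⟫_ℝ := by fun_prop
    rw [hμT, ProbabilityTheory.variance_map hm1.aemeasurable hTm.aemeasurable] at h2
    have hm2 : Measurable fun x => ⟪T x, θ⟫_ℝ := (hTc.inner continuous_const).measurable
    obtain ⟨-, h3⟩ := var_pm hA (fun x => ⟪T x, θ⟫_ℝ) hm2 (‖T2‖ ^ 2) (fun x => by
      have h4 : |⟪T x, θ⟫_ℝ| ≤ ‖T2‖ * ‖x‖ := by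
        refine (abs_real_inner_le_norm _ _).trans ?_
        rw [hθ, mul_one, ← hT2]
        exact T2.le_opNorm x
      rw [← sq_abs]
      calc |⟪T x, θ⟫_ℝ| ^ 2 ≤ (‖T2‖ * ‖x‖) ^ 2 := pow_le_pow_left₀ (abs_nonneg _) h4 2
        _ = ‖T2‖ ^ 2 * ‖x‖ ^ 2 := by ring
        _ ≤ ‖T2‖ ^ 2 * (1 + ‖x‖ ^ 2) := by nlinarith [sq_nonneg ‖T2‖])
    rw [← h3]
    exact h2
  obtain ⟨k1, k2⟩ := lin_kl (tr e G) (kl2_tr e G hG) w hA hlc hinv T s hs hvar' f hf hL
  have hfm : Measurable f := hf.continuous.measurable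
  refine ⟨?_, ?_⟩
  · rw [hμT, memLp_map_measure_iff hfm.aestronglyMeasurable hTm.aemeasurable]
    exact k1
  · rw [hμT, ProbabilityTheory.variance_map hfm.aemeasurable hTm.aemeasurable]
    exact k2

/-- all linear images of the uniform measures on images of invariant bodies -/
theorem half_kl (r : ℕ) (C : ℝ) (hC : 0 < C) : ∃ c : ℝ, 0 < c ∧
    ∀ (κ : Type) [Fintype κ] (G : Set (EuclideanSpace ℝ κ ≃ₗᵢ[ℝ] EuclideanSpace ℝ κ)), KL G C →
    ∀ (m : ℕ) (K : Set (EuclideanSpace ℝ κ)) (T : EuclideanSpace ℝ κ →ᵃ[ℝ] Eu (Fin m)), 1 ≤ m →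
    Fintype.card κ ≤ m + r → IsCompact K → Convex ℝ K → (interior K).Nonempty →
    (∀ g ∈ G, ∀ x, g x ∈ K ↔ x ∈ K) → Function.Surjective T →
    ∀ (n : ℕ) (L : Eu (Fin m) →ₗ[ℝ] Eu (Fin n)) (μ : Measure (Eu (Fin n))),
    μ = Measure.map L ((volume (T '' K))⁻¹ • volume.restrict (T '' K)) →
    IsProbabilityMeasure μ ∧ ∀ s : ℝ, 0 < s →
    (∀ θ : Eu (Fin n), ‖θ‖ = 1 → ProbabilityTheory.variance (fun x => ⟪x, θ⟫_ℝ) μ ≤ s) →
    ∀ S : Set (Eu (Fin n)), μ S = 1 / 2 → ENNReal.ofReal (c / Real.sqrt s) ≤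
      liminf (fun ε : ℝ => (μ (Metric.thickening ε S) - μ S) / ENNReal.ofReal ε) (𝓝[>] 0) := by
  obtain ⟨c, hc, H⟩ := star_aff_kl r C hC
  refine ⟨1 / (4 * c), by positivity,
    fun κ _ G hG m K T hm hcard hcp hcv hint hinv hT n L μ hμ => ?_⟩
  obtain ⟨h1, h2, h3, h4⟩ := H κ G hG m K T hm hcard hcp hcv hint hinv hT
  have hA := adm_ind (T '' K) h1.measurableSet h1.isBounded (vol_pos h3)
  refine Pool.Agent.Y506.RG.half_of_star Pool.Agent.Y429.RG.minkm hA c hc h4 n L μ ?_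
  rw [hμ, Pool.Agent.Y506.PV.pm_ind (T '' K) h1.measurableSet]

end Pool.Agent.Q155.IB
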