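import Pool.Agent.Q155.IB.Tr0

/-!
# All linear images of invariant log-concave measures
-/

set_option autoImplicit false

namespace Pool.Agent.Q155.IB

open MeasureTheory Set Filter Topology
open scoped ENNReal InnerProductSpace
open Pool.Agent.W695.KH (Eu)
open Pool.Agent.Y506.RG (EW VW Adm EW_aff EW_const_mul pm pm_prob pm_int pm_integrable lint_w norm_T)
open Pool.Agent.Y506.PV (CcW LCn comp_lin)
open Pool.Agent.H212R2.KLS (mu)

/-- the variance inequality for all Lipschitz functions -/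
def KL2 {κ : Type} [Fintype κ] (G : Set (EuclideanSpace ℝ κ ≃ₗᵢ[ℝ] EuclideanSpace ℝ κ)) (C : ℝ) :
    Prop :=
  ∀ ρ : EuclideanSpace ℝ κ → ℝ, Pool.Agent.TH594.KP.GD G ρ → mu ρ univ = 1 →
  (∀ θ : EuclideanSpace ℝ κ, ProbabilityTheory.evariance (fun x => ⟪θ, x⟫_ℝ) (mu ρ) ≤
    ENNReal.ofReal (‖θ‖ ^ 2)) →
  ∀ f : EuclideanSpace ℝ κ → ℝ, ContDiff ℝ 1 f → (∀ x, ‖fderiv ℝ f x‖ ≤ 1) →
  MemLp f 2 (mu ρ) ∧ ProbabilityTheory.variance f (mu ρ) ≤ C

theorem KL2.kl {κ : Type} [Fintype κ]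
    {G : Set (EuclideanSpace ℝ κ ≃ₗᵢ[ℝ] EuclideanSpace ℝ κ)} {C : ℝ} (h : KL2 G C) : KL G C :=
  fun ρ hρ h1 hcov f hf _ hL => (h ρ hρ h1 hcov f hf hL).2

section tr

variable {κ κ' : Type} [Fintype κ] [Fintype κ']

theorem kl2_tr {C : ℝ} (e : EuclideanSpace ℝ κ ≃ₗᵢ[ℝ] EuclideanSpace ℝ κ')
    (G : Set (EuclideanSpace ℝ κ ≃ₗᵢ[ℝ] EuclideanSpace ℝ κ)) (hG : KL2 G C) :
    KL2 (tr e G) C := by
  intro ρ hρ h1 hcov f hf hL
  have hes : Measurable e.symm := e.symm.continuous.measurable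
  have hmu := mu_comp e ρ hρ.meas
  have hGD : Pool.Agent.TH594.KP.GD G fun x => ρ (e x) := by
    refine ⟨fun x => hρ.nonneg _, hρ.meas.comp e.continuous.measurable, fun x y t h0 h1 => ?_,
      fun g hg x => ?_⟩
    · simp only [map_add, map_smul]
      exact hρ.logc _ _ t h0 h1
    · have h2 := hρ.inv ((e.symm.trans g).trans e) ⟨g, hg, rfl⟩ (e x)
      have h3 : ((e.symm.trans g).trans e) (e x) = e (g x) := by
        show e (g (e.symm (e x))) = e (g x)
        rw [e.symm_apply_apply]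
      rw [h3] at h2
      exact h2
  have h2 : mu (fun x => ρ (e x)) univ = 1 := by
    rw [hmu, Measure.map_apply hes MeasurableSet.univ, preimage_univ]
    exact h1
  have hfe : ∀ x, ‖fderiv ℝ (fun x => f (e x)) x‖ ≤ 1 := by
    intro x
    have h4 : HasFDerivAt (fun x => f (e x))
        ((fderiv ℝ f (e x)).comp (e.toContinuousLinearEquiv : EuclideanSpace ℝ κ →L[ℝ]
          EuclideanSpace ℝ κ')) x :=
      HasFDerivAt.comp x ((hf.differentiable one_ne_zero _).hasFDerivAt)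
        (e.toContinuousLinearEquiv : EuclideanSpace ℝ κ →L[ℝ]
          EuclideanSpace ℝ κ').hasFDerivAt
    rw [h4.fderiv]
    refine ContinuousLinearMap.opNorm_le_bound _ zero_le_one fun y => ?_
    have h5 := (fderiv ℝ f (e x)).le_opNorm (e y)
    rw [e.norm_map] at h5
    refine h5.trans (mul_le_mul_of_nonneg_right (hL _) (norm_nonneg _))
  obtain ⟨key1, key2⟩ := hG (fun x => ρ (e x)) hGD h2 (fun θ => by
    have h5 := hcov (e θ)
    rw [e.norm_map] at h5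
    rw [hmu]
    have h6 : ProbabilityTheory.evariance (fun x => ⟪θ, x⟫_ℝ) (Measure.map e.symm (mu ρ)) =
        ProbabilityTheory.evariance (fun x => ⟪e θ, x⟫_ℝ) (mu ρ) := by
      have hm : Measurable fun x : EuclideanSpace ℝ κ => ⟪θ, x⟫_ℝ := by fun_prop
      unfold ProbabilityTheory.evariance
      rw [integral_map hes.aemeasurable hm.aestronglyMeasurable,
        lintegral_map (by fun_prop) hes]
      have h7 : ∀ x, ⟪θ, e.symm x⟫_ℝ = ⟪e θ, x⟫_ℝ := by
        intro x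
        rw [← e.inner_map_map θ (e.symm x), e.apply_symm_apply]
      simp only [h7]
    rw [h6]
    exact h5) (fun x => f (e x)) (hf.comp e.contDiff) hfe
  have h8 : (fun x => f (e x)) ∘ e.symm = f := by
    funext x
    simp
  have hfm : Measurable fun x => f (e x) := (hf.continuous.comp e.continuous).measurable
  rw [hmu, ProbabilityTheory.variance_map hfm.aemeasurable hes.aemeasurable, h8] at key2
  rw [hmu, memLp_map_measure_iff hfm.aestronglyMeasurable hes.aemeasurable, h8] at key1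
  exact ⟨key1, key2⟩

end tr

variable {n : ℕ}

/-- linear images, weights on `ℝⁿ` -/
theorem lin_kl {C : ℝ} (G : Set (Eu (Fin n) ≃ₗᵢ[ℝ] Eu (Fin n))) (hG : KL2 G C)
    (w : Eu (Fin n) → ℝ) (hA : Adm w) (hlc : LCn w) (hinv : ∀ g ∈ G, ∀ x, w (g x) = w x)
    {k : ℕ} (T : Eu (Fin n) →ₗ[ℝ] Eu (Fin k)) (s : ℝ) (hs : 0 < s)
    (hvar : ∀ θ : Eu (Fin k), ‖θ‖ = 1 → VW w (fun x => ⟪T x, θ⟫_ℝ) ≤ s)
    (f : Eu (Fin k) → ℝ) (hf : ContDiff ℝ 1 f) (hL : ∀ y, ‖fderiv ℝ f y‖ ≤ 1) :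
    MemLp (fun x => f (T x)) 2 (pm w) ∧
      ProbabilityTheory.variance (fun x => f (T x)) (pm w) ≤ C * s := by
  obtain ⟨R, hR1, hR2, hR3⟩ := exists_sqrt (Sg w) (Sg_symm w) fun x hx => Sg_pos hA x hx
  obtain ⟨w1, hw1⟩ : ∃ w1 : Eu (Fin n) → ℝ, w1 = fun y => w (R y) := ⟨_, rfl⟩
  have hww : ∀ x, w x = w1 (R.symm x) := fun x => by
    rw [hw1]
    simp
  have hcomm : ∀ g ∈ G, ∀ x, R (g x) = g (R x) := by
    intro g hg x
    refine (hR3 g.toLinearEquiv.toLinearMap (fun y => ?_) x).symm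
    refine comm_of_quad (Sg w) (Sg_symm w) g (fun z => ?_) y
    rw [Sg_quad hA, Sg_quad hA]
    exact VW_inv g (hinv g hg) z
  have hnn : ∀ x, 0 ≤ w1 x := fun x => by rw [hw1]; exact hA.nonneg _
  have hmeas : Measurable w1 := by
    rw [hw1]
    exact hA.meas.comp R.continuous.measurable
  have hlc1 : LCn w1 := by
    intro x y t h0 h1
    rw [hw1]
    simp only [map_add, map_smul]
    exact hlc _ _ t h0 h1
  have hpos : 0 < ∫ x, w1 x := by
    obtain ⟨κ, hκ, H⟩ := Pool.Agent.Y506.RG.int_lin R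
    rw [hw1, H]
    exact mul_pos hκ hA.pos
  have hA1 : Adm w1 := ⟨hnn, Pool.Agent.Y506.PV.int_moment hnn hmeas hlc1 hpos, hpos, hmeas⟩
  have hRs : ∀ x y, ⟪R.symm x, y⟫_ℝ = ⟪x, R.symm y⟫_ℝ := by
    intro x y
    have h1 := hR1 (R.symm x) (R.symm y)
    rw [ContinuousLinearEquiv.apply_symm_apply, ContinuousLinearEquiv.apply_symm_apply] at h1
    exact h1.symm
  have hiso : ∀ θ : Eu (Fin n), VW w1 (fun x => ⟪θ, x⟫_ℝ) = ‖θ‖ ^ 2 := by
    intro θ
    rw [VW_aff R.symm w w1 hww]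
    have e1 : (fun x => ⟪θ, R.symm x⟫_ℝ) = fun x => ⟪x, R.symm θ⟫_ℝ := by
      funext x
      rw [← hRs, real_inner_comm]
    rw [e1, ← Sg_quad hA, ← hR2, hR1, ContinuousLinearEquiv.apply_symm_apply,
      real_inner_self_eq_norm_sq]
  obtain ⟨Z, hZ⟩ : ∃ Z : ℝ, Z = ∫ y, w1 y := ⟨_, rfl⟩
  have hZ0 : 0 < Z := by rw [hZ]; exact hpos
  have hGD : Pool.Agent.TH594.KP.GD G fun x => w1 x / Z := by
    refine ⟨fun x => div_nonneg (hnn x) hZ0.le, hmeas.div_const Z, fun x y t h0 h1 => ?_,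
      fun g hg x => ?_⟩
    · rw [Real.div_rpow (hnn x) hZ0.le, Real.div_rpow (hnn y) hZ0.le, div_mul_div_comm,
        ← Real.rpow_add hZ0, sub_add_cancel, Real.rpow_one]
      exact div_le_div_of_nonneg_right (hlc1 x y t h0 h1) hZ0.le
    · rw [hw1]
      simp only
      rw [hcomm g hg, hinv g hg]
  have hmu : pm w1 = mu fun x => w1 x / Z := by
    rw [hZ]
    exact pm_mu hA1
  have hprob := pm_prob hA1
  have hpr := pm_prob hA
  -- the linear map in isotropic position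
  obtain ⟨T1, hT1⟩ : ∃ T1 : Eu (Fin n) →ₗ[ℝ] Eu (Fin k), ∀ x, T1 x = T (R x) :=
    ⟨T ∘ₗ R.toLinearEquiv.toLinearMap, fun x => rfl⟩
  have hvar1 : ∀ θ : Eu (Fin k), ‖θ‖ = 1 → VW w1 (fun x => ⟪T1 x, θ⟫_ℝ) ≤ s := by
    intro θ hθ
    rw [VW_aff R.symm w w1 hww]
    simp only [hT1, ContinuousLinearEquiv.apply_symm_apply]
    exact hvar θ hθ
  have hnT := norm_T w1 1 one_pos (fun θ hθ => by rw [hiso, hθ]; norm_num) T1 s hs hvar1
  rw [div_one] at hnT
  obtain ⟨hc1, hc2⟩ := comp_lin T1 (Real.sqrt s) (Real.sqrt_nonneg s) hnT f hf 1 hL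
  have hs0 : 0 < Real.sqrt s := Real.sqrt_pos.2 hs
  have hfd : ∀ x, ‖fderiv ℝ (fun x => (Real.sqrt s)⁻¹ * f (T1 x)) x‖ ≤ 1 := by
    intro x
    have h2 : fderiv ℝ (fun x => (Real.sqrt s)⁻¹ * f (T1 x)) x =
        (Real.sqrt s)⁻¹ • fderiv ℝ (fun x => f (T1 x)) x :=
      fderiv_const_mul (hc1.differentiable one_ne_zero x) (Real.sqrt s)⁻¹
    rw [h2, norm_smul, Real.norm_eq_abs, abs_of_pos (inv_pos.2 hs0)]
    calc (Real.sqrt s)⁻¹ * ‖fderiv ℝ (fun x => f (T1 x)) x‖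
        ≤ (Real.sqrt s)⁻¹ * (1 * Real.sqrt s) :=
          mul_le_mul_of_nonneg_left (hc2 x) (inv_pos.2 hs0).le
      _ = 1 := by rw [one_mul, inv_mul_cancel₀ hs0.ne']
  obtain ⟨key1, key2⟩ := hG (fun x => w1 x / Z) hGD
    (by rw [← hmu]; exact hprob.measure_univ) (fun θ => by
    rw [← hmu]
    obtain ⟨h1, h2⟩ := var_pm hA1 (fun x => ⟪θ, x⟫_ℝ) (by fun_prop) (‖θ‖ ^ 2) (fun x => by
      have h3 := abs_real_inner_le_norm θ x
      rw [← sq_abs]
      calc |⟪θ, x⟫_ℝ| ^ 2 ≤ (‖θ‖ * ‖x‖) ^ 2 := pow_le_pow_left₀ (abs_nonneg _) h3 2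
        _ = ‖θ‖ ^ 2 * ‖x‖ ^ 2 := by ring
        _ ≤ ‖θ‖ ^ 2 * (1 + ‖x‖ ^ 2) := by nlinarith [sq_nonneg ‖θ‖])
    rw [← h1.ofReal_variance_eq, h2, hiso]) (fun x => (Real.sqrt s)⁻¹ * f (T1 x))
    (contDiff_const.mul hc1) hfd
  rw [← hmu] at key1 key2
  -- the law of `R y` under `pm w1` is `pm w`
  have hRm : Measurable R := R.continuous.measurable
  have hmap : Measure.map R (pm w1) = pm w := by
    have hRs' : Measurable R.symm := R.symm.continuous.measurable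
    ext S hS
    rw [Measure.map_apply hRm hS]
    have h1 : (pm w1 (R ⁻¹' S)).toReal = (pm w S).toReal := by
      have e1 : ∀ (v : Eu (Fin n) → ℝ) (hv : Adm v) (U : Set (Eu (Fin n))), MeasurableSet U →
          (pm v U).toReal = EW v (U.indicator fun _ => 1) := by
        intro v hv U hU
        rw [← pm_int hv, integral_indicator hU]
        simp [Measure.real]
      rw [e1 w1 hA1 _ (hRm hS), e1 w hA S hS,
        EW_aff R.symm 0 1 one_pos w w1 (fun x => by rw [one_mul, sub_zero]; exact hww x)]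
      congr 1
      funext z
      simp only [ContinuousLinearEquiv.symm_symm, add_zero]
      rfl
    exact (ENNReal.toReal_eq_toReal_iff' (measure_ne_top _ _) (measure_ne_top _ _)).1 h1
  have hTm : Measurable fun x => f (T x) :=
    (hf.continuous.comp T.continuous_of_finiteDimensional).measurable
  have hcomp : (fun x => f (T x)) ∘ R = fun x => f (T1 x) := by
    funext x
    rw [Function.comp_apply, hT1]
  have hm2 : MemLp (fun x => f (T1 x)) 2 (pm w1) := by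
    have h1 := key1.const_mul (Real.sqrt s)
    refine h1.congr_norm (hc1.continuous.aestronglyMeasurable) (Eventually.of_forall fun x => ?_)
    rw [← mul_assoc, mul_inv_cancel₀ hs0.ne', one_mul]
  refine ⟨?_, ?_⟩
  · rw [← hmap, memLp_map_measure_iff hTm.aestronglyMeasurable hRm.aemeasurable, hcomp]
    exact hm2
  · rw [← hmap, ProbabilityTheory.variance_map hTm.aemeasurable hRm.aemeasurable, hcomp]
    rw [ProbabilityTheory.variance_const_mul] at key2
    have h3 : ((Real.sqrt s)⁻¹) ^ 2 = s⁻¹ := by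
      rw [inv_pow, Real.sq_sqrt hs.le]
    rw [h3] at key2
    have h4 := mul_le_mul_of_nonneg_right key2 hs.le
    have h5 : s⁻¹ * ProbabilityTheory.variance (fun x => f (T1 x)) (pm w1) * s =
        ProbabilityTheory.variance (fun x => f (T1 x)) (pm w1) := by
      field_simp
    rw [h5] at h4
    exact h4

end Pool.Agent.Q155.IB
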