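import Mathlib

/-!
# Square roots of positive operators which commute with everything that commutes with the operator
-/

set_option autoImplicit false

namespace Pool.Agent.Q155.IB

open scoped InnerProductSpace

variable {E : Type*} [NormedAddCommGroup E] [InnerProductSpace ℝ E] [FiniteDimensional ℝ E]

theorem comm_aeval (S g : E →ₗ[ℝ] E) (h : g * S = S * g) (p : Polynomial ℝ) :
    g * (Polynomial.aeval S p) = (Polynomial.aeval S p) * g := by
  induction p using Polynomial.induction_on' with
  | add p q hp hq => rw [map_add, mul_add, add_mul, hp, hq]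
  | monomial n a =>
    rw [Polynomial.aeval_monomial]
    have h1 : g * S ^ n = S ^ n * g := by
      have : Commute g S := h
      exact (this.pow_right n)
    have h2 : g * (algebraMap ℝ (E →ₗ[ℝ] E) a) = (algebraMap ℝ (E →ₗ[ℝ] E) a) * g :=
      (Algebra.commutes a g).symm
    rw [← mul_assoc, h2, mul_assoc, h1, mul_assoc]

theorem symm_aeval (S : E →ₗ[ℝ] E) (hS : S.IsSymmetric) (p : Polynomial ℝ) :
    (Polynomial.aeval S p).IsSymmetric := by
  induction p using Polynomial.induction_on' with
  | add p q hp hq =>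
    rw [map_add]
    exact hp.add hq
  | monomial n a =>
    rw [Polynomial.aeval_monomial]
    have h1 : (S ^ n).IsSymmetric := hS.pow n
    have h2 : (algebraMap ℝ (E →ₗ[ℝ] E) a) * S ^ n = a • S ^ n := by
      rw [Algebra.smul_def]
    rw [h2]
    intro x y
    rw [LinearMap.smul_apply, LinearMap.smul_apply, real_inner_smul_left, real_inner_smul_right,
      h1 x y]

/-- the square root of a positive definite operator, as a polynomial in the operator -/
theorem exists_sqrt (S : E →ₗ[ℝ] E) (hS : S.IsSymmetric) (hpos : ∀ x, x ≠ 0 → 0 < ⟪S x, x⟫_ℝ) :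
    ∃ R : E ≃L[ℝ] E, (∀ x y, ⟪R x, y⟫_ℝ = ⟪x, R y⟫_ℝ) ∧ (∀ x, R (R x) = S x) ∧
    ∀ g : E →ₗ[ℝ] E, (∀ x, g (S x) = S (g x)) → ∀ x, g (R x) = R (g x) := by
  obtain ⟨n, hn⟩ : ∃ n, Module.finrank ℝ E = n := ⟨_, rfl⟩
  let b := hS.eigenvectorBasis hn
  let lam := hS.eigenvalues hn
  have hb : ∀ i, S (b i) = lam i • b i := fun i => hS.apply_eigenvectorBasis hn i
  have hlam : ∀ i, 0 < lam i := by
    intro i
    have h1 := hpos (b i) (b.orthonormal.ne_zero i)
    rw [hb, real_inner_smul_left, real_inner_self_eq_norm_sq, b.orthonormal.norm_eq_one i] at h1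
    simpa using h1
  let p : Polynomial ℝ := Lagrange.interpolate (Finset.univ.image lam) id fun t => Real.sqrt t
  have hp : ∀ i, p.eval (lam i) = Real.sqrt (lam i) := by
    intro i
    have h1 := Lagrange.eval_interpolate_at_node (s := Finset.univ.image lam) (v := id)
      (fun t : ℝ => Real.sqrt t) (Function.injective_id.injOn)
      (Finset.mem_image_of_mem lam (Finset.mem_univ i))
    exact h1
  let R0 : E →ₗ[ℝ] E := Polynomial.aeval S p
  have hR0 : ∀ i, R0 (b i) = Real.sqrt (lam i) • b i := by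
    intro i
    have h1 : Module.End.HasEigenvector S (lam i) (b i) :=
      ⟨Module.End.mem_eigenspace_iff.2 (hb i), b.orthonormal.ne_zero i⟩
    have h2 := Module.End.aeval_apply_of_hasEigenvector (p := p) h1
    rw [hp] at h2
    exact h2
  have hRR : ∀ x, R0 (R0 x) = S x := by
    intro x
    have h1 : R0 ∘ₗ R0 = S := by
      refine b.toBasis.ext fun i => ?_
      rw [LinearMap.comp_apply, OrthonormalBasis.coe_toBasis, hR0, map_smul, hR0, hb, smul_smul,
        Real.mul_self_sqrt (hlam i).le]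
    rw [← LinearMap.comp_apply, h1]
  have hinj : Function.Injective R0 := by
    rw [← LinearMap.ker_eq_bot, LinearMap.ker_eq_bot']
    intro x hx
    by_contra h0
    have h1 := hpos x h0
    rw [← hRR, hx, map_zero, inner_zero_left] at h1
    exact lt_irrefl _ h1
  let e : E ≃ₗ[ℝ] E := LinearEquiv.ofInjectiveEndo R0 hinj
  have he : ∀ x, e x = R0 x := fun x => rfl
  refine ⟨e.toContinuousLinearEquiv, ?_, ?_, ?_⟩
  · intro x y
    show ⟪R0 x, y⟫_ℝ = ⟪x, R0 y⟫_ℝ
    exact symm_aeval S hS p x y
  · intro x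
    exact hRR x
  · intro g hg x
    have h1 : g * S = S * g := LinearMap.ext fun x => hg x
    have h2 := congrArg (fun u : E →ₗ[ℝ] E => u x) (comm_aeval S g h1 p)
    exact h2

/-- an isometry which preserves the quadratic form of a symmetric operator commutes with it -/
theorem comm_of_quad (S : E →ₗ[ℝ] E) (hS : S.IsSymmetric) (g : E ≃ₗᵢ[ℝ] E)
    (h : ∀ x, ⟪S (g x), g x⟫_ℝ = ⟪S x, x⟫_ℝ) : ∀ x, g (S x) = S (g x) := by
  let D : E →ₗ[ℝ] E := (g.symm.toLinearEquiv.toLinearMap ∘ₗ S ∘ₗ g.toLinearEquiv.toLinearMap) - S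
  have hD : ∀ x, D x = g.symm (S (g x)) - S x := fun x => rfl
  have h1 : ∀ x y, ⟪g.symm x, y⟫_ℝ = ⟪x, g y⟫_ℝ := by
    intro x y
    rw [← g.inner_map_map (g.symm x) y, g.apply_symm_apply]
  have hDs : D.IsSymmetric := by
    intro x y
    rw [hD, hD, inner_sub_left, inner_sub_right, h1, real_inner_comm (g.symm (S (g y))) x, h1,
      hS x y, hS (g x) (g y), real_inner_comm (g x) (S (g y))]
  have h0 : D = 0 := by
    rw [← hDs.inner_map_self_eq_zero]
    intro x
    rw [hD, inner_sub_left, h1, h, sub_self]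
  intro x
  have h2 : D x = 0 := by rw [h0]; rfl
  rw [hD, sub_eq_zero] at h2
  rw [← h2, g.apply_symm_apply]

end Pool.Agent.Q155.IB
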