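import Pool.Agent.Q155.IB.Tr0
import Pool.Agent.Y506.PV.Fin

/-!
# Images of invariant convex bodies
-/

set_option autoImplicit false

namespace Pool.Agent.Q155.IB

open MeasureTheory Set Filter Topology
open scoped ENNReal InnerProductSpace
open Pool.Agent.W695.KH (Eu)
open Pool.Agent.Y506.RG (EW VW Adm Star max_const)
open Pool.Agent.Y506.PV (CcW LCn ind S_STB cc_img int_image adm_ind vol_pos lcn_ind)
open Pool.Agent.H212R2.KLS (mu)


/-- **The functional inequality for images of corank at most `r` of invariant convex bodies.** -/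
theorem star_kl (r : ℕ) (C : ℝ) (hC : 0 < C) : ∃ c : ℝ, 0 < c ∧
    ∀ (κ : Type) [Fintype κ] (G : Set (EuclideanSpace ℝ κ ≃ₗᵢ[ℝ] EuclideanSpace ℝ κ)), KL G C →
    ∀ (n : ℕ) (K : Set (EuclideanSpace ℝ κ)) (T : EuclideanSpace ℝ κ →ₗ[ℝ] Eu (Fin n)), 1 ≤ n →
    Fintype.card κ ≤ n + r → IsCompact K → Convex ℝ K → (interior K).Nonempty →
    (∀ g ∈ G, ∀ x, g x ∈ K ↔ x ∈ K) → Function.Surjective T →
    IsCompact (T '' K) ∧ Convex ℝ (T '' K) ∧ (interior (T '' K)).Nonempty ∧
      Star c (ind (T '' K)) := by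
  obtain ⟨c, hc, H⟩ := max_const (fun d c => ∀ (n : ℕ)
      (G : Set (Eu (Fin (n + d)) ≃ₗᵢ[ℝ] Eu (Fin (n + d)))), KL G C →
      ∀ (K : Set (Eu (Fin (n + d)))) (A : Eu (Fin (n + d)) →ₗ[ℝ] Eu (Fin n)), 1 ≤ n →
      IsCompact K → Convex ℝ K → (interior K).Nonempty → (∀ g ∈ G, ∀ x, g x ∈ K ↔ x ∈ K) →
      Function.Surjective A → Star c (ind (A '' K)))
    (fun d => by
      obtain ⟨δ0, c0, hδ0, hc0, H0⟩ := cc_img Pool.Agent.Y941.PV.prj Pool.Agent.Y506.PV.denR
        Pool.Agent.Y388.PV.cmp Pool.Agent.Y388.PV.fac d (1 / 25) (by norm_num)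
      obtain ⟨l, hl⟩ : ∃ l : ℝ, l = Real.sqrt (δ0 / C) := ⟨_, rfl⟩
      have hl0 : 0 < l := by rw [hl]; exact Real.sqrt_pos.2 (div_pos hδ0 hC)
      have hCl : C * l ^ 2 = δ0 := by
        rw [hl, Real.sq_sqrt (div_pos hδ0 hC).le]
        field_simp
      have hSTB : S_STB := Pool.Agent.Y506.PV.stb Pool.Agent.Y211.PV.iso
      obtain ⟨c, hc, H2⟩ := hSTB (c0 * l) (by positivity)
      refine ⟨c, hc, fun n G hG K A hn hcp hcv hint hinv hA => ?_⟩
      have hAc : Continuous A := A.continuous_of_finiteDimensional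
      have hadm := adm_ind K hcp.measurableSet hcp.isBounded (vol_pos hint)
      have hcc := cc_kl G hG (ind K) hadm (lcn_ind hcv) (fun g hg x => by
        unfold ind
        by_cases hx : x ∈ K
        · rw [indicator_of_mem hx, indicator_of_mem ((hinv g hg x).2 hx)]
        · rw [indicator_of_notMem hx, indicator_of_notMem fun h => hx ((hinv g hg x).1 h)]) l hl0
      rw [hCl] at hcc
      exact H2 n (A '' K) (hcp.image hAc) (hcv.linear_image A) (int_image hint A hA)
        (H0 n l K A hl0 hcp hcv hint hA hcc))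
    (fun d c c' hcc h n G hG K A hn hcp hcv hint hinv hA =>
      Pool.Agent.Y506.RG.Star.mono hcc (fun x => indicator_nonneg (fun _ _ => zero_le_one) x)
        (h n G hG K A hn hcp hcv hint hinv hA)) r
  refine ⟨c, hc, fun κ _ G hG n K T hn hcard hcp hcv hint hinv hT => ?_⟩
  have hnm : n ≤ Fintype.card κ := by
    have := LinearMap.finrank_le_finrank_of_surjective (f := T) hT
    simpa using this
  obtain ⟨d, hd⟩ : ∃ d, Fintype.card κ = n + d := ⟨Fintype.card κ - n, by omega⟩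
  have hTc : Continuous T := T.continuous_of_finiteDimensional
  have hTint : (interior (T '' K)).Nonempty := by
    obtain ⟨x, hx⟩ := hint
    have h1 : IsOpenMap (LinearMap.toContinuousLinearMap T) :=
      ContinuousLinearMap.isOpenMap _ hT
    have h2 : IsOpen (T '' interior K) := h1 _ isOpen_interior
    have h3 : T '' interior K ⊆ T '' K := image_mono interior_subset
    exact ⟨T x, interior_maximal h3 h2 ⟨x, hx, rfl⟩⟩
  refine ⟨hcp.image hTc, hcv.linear_image T, hTint, ?_⟩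
  let e : EuclideanSpace ℝ κ ≃ₗᵢ[ℝ] Eu (Fin (n + d)) :=
    LinearIsometryEquiv.piLpCongrLeft 2 ℝ ℝ (Fintype.equivFinOfCardEq hd)
  obtain ⟨A, hA⟩ : ∃ A : Eu (Fin (n + d)) →ₗ[ℝ] Eu (Fin n), A = T ∘ₗ
    e.symm.toLinearEquiv.toLinearMap := ⟨_, rfl⟩
  have hAe : ∀ x, A x = T (e.symm x) := fun x => by rw [hA]; rfl
  have himg : T '' K = A '' (e '' K) := by
    rw [image_image]
    refine image_congr fun x _ => ?_
    rw [hAe, e.symm_apply_apply]
  have hAs : Function.Surjective A := by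
    intro y
    obtain ⟨x, hx⟩ := hT y
    exact ⟨e x, by rw [hAe, e.symm_apply_apply, hx]⟩
  rw [himg]
  refine H d (by omega) n (tr e G) (kl_tr e G hG) (e '' K) A hn (hcp.image e.continuous)
    (hcv.linear_image e.toLinearEquiv.toLinearMap) ?_ ?_ hAs
  · obtain ⟨x, hx⟩ := hint
    have h2 : IsOpen (e '' interior K) := e.toHomeomorph.isOpenMap _ isOpen_interior
    exact ⟨e x, interior_maximal (image_mono interior_subset) h2 ⟨x, hx, rfl⟩⟩
  · rintro h ⟨g, hg, rfl⟩ x
    have h1 : ∀ y, y ∈ e '' K ↔ e.symm y ∈ K := by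
      intro y
      constructor
      · rintro ⟨z, hz, rfl⟩
        rw [e.symm_apply_apply]
        exact hz
      · intro hy
        exact ⟨e.symm y, hy, e.apply_symm_apply y⟩
    rw [h1, h1]
    show e.symm (e (g (e.symm x))) ∈ K ↔ _
    rw [e.symm_apply_apply]
    exact hinv g hg _

end Pool.Agent.Q155.IB
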