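import Pool.Agent.Q155.IB.Iso

/-!
# Transport to other coordinates
-/

set_option autoImplicit false

namespace Pool.Agent.Q155.IB

open MeasureTheory Set Filter Topology
open scoped ENNReal InnerProductSpace
open Pool.Agent.H212R2.KLS (mu)

section tr

variable {κ κ' : Type} [Fintype κ] [Fintype κ']

/-- transport of a set of isometries -/
def tr (e : EuclideanSpace ℝ κ ≃ₗᵢ[ℝ] EuclideanSpace ℝ κ')
    (G : Set (EuclideanSpace ℝ κ ≃ₗᵢ[ℝ] EuclideanSpace ℝ κ)) :
    Set (EuclideanSpace ℝ κ' ≃ₗᵢ[ℝ] EuclideanSpace ℝ κ') :=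
  {h | ∃ g ∈ G, h = (e.symm.trans g).trans e}

theorem mu_comp (e : EuclideanSpace ℝ κ ≃ₗᵢ[ℝ] EuclideanSpace ℝ κ')
    (ρ : EuclideanSpace ℝ κ' → ℝ) (hρ : Measurable ρ) :
    mu (fun x => ρ (e x)) = Measure.map e.symm (mu ρ) := by
  have hem : Measurable e := e.continuous.measurable
  have hes : Measurable e.symm := e.symm.continuous.measurable
  ext s hs
  rw [Measure.map_apply hes hs]
  unfold mu
  rw [withDensity_apply _ hs, withDensity_apply _ (hes hs)]
  have h1 := (e.measurePreserving).setLIntegral_comp_preimage (hes hs)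
    (ENNReal.measurable_ofReal.comp hρ)
  have h2 : e ⁻¹' (e.symm ⁻¹' s) = s := by
    ext x
    simp
  rw [h2] at h1
  exact h1

theorem kl_tr {C : ℝ} (e : EuclideanSpace ℝ κ ≃ₗᵢ[ℝ] EuclideanSpace ℝ κ')
    (G : Set (EuclideanSpace ℝ κ ≃ₗᵢ[ℝ] EuclideanSpace ℝ κ)) (hG : KL G C) : KL (tr e G) C := by
  intro ρ hρ h1 hcov f hf hb hL
  have hes : Measurable e.symm := e.symm.continuous.measurable
  have hmu := mu_comp e ρ hρ.meas
  have hGD : Pool.Agent.TH594.KP.GD G fun x => ρ (e x) := by
    refine ⟨fun x => hρ.nonneg _, hρ.meas.comp e.continuous.measurable, fun x y t h0 h1 => ?_,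
      fun g hg x => ?_⟩
    · simp only [map_add, map_smul]
      exact hρ.logc _ _ t h0 h1
    · have h2 := hρ.inv ((e.symm.trans g).trans e) ⟨g, hg, rfl⟩ (e x)
      have h3 : ((e.symm.trans g).trans e) (e x) = e (g x) := by
        show e (g (e.symm (e x))) = e (g x)
        rw [e.symm_apply_apply]
      rw [h3] at h2
      exact h2
  have h2 : mu (fun x => ρ (e x)) univ = 1 := by
    rw [hmu, Measure.map_apply hes MeasurableSet.univ, preimage_univ]
    exact h1
  have hfe : ∀ x, ‖fderiv ℝ (fun x => f (e x)) x‖ ≤ 1 := by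
    intro x
    have h4 : HasFDerivAt (fun x => f (e x))
        ((fderiv ℝ f (e x)).comp (e.toContinuousLinearEquiv : EuclideanSpace ℝ κ →L[ℝ]
          EuclideanSpace ℝ κ')) x :=
      HasFDerivAt.comp x ((hf.differentiable one_ne_zero _).hasFDerivAt)
        (e.toContinuousLinearEquiv : EuclideanSpace ℝ κ →L[ℝ]
          EuclideanSpace ℝ κ').hasFDerivAt
    rw [h4.fderiv]
    refine ContinuousLinearMap.opNorm_le_bound _ zero_le_one fun y => ?_
    have h5 := (fderiv ℝ f (e x)).le_opNorm (e y)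
    rw [e.norm_map] at h5
    refine h5.trans (mul_le_mul_of_nonneg_right (hL _) (norm_nonneg _))
  have key := hG (fun x => ρ (e x)) hGD h2 (fun θ => by
    have h5 := hcov (e θ)
    rw [e.norm_map] at h5
    rw [hmu]
    have h6 : ProbabilityTheory.evariance (fun x => ⟪θ, x⟫_ℝ) (Measure.map e.symm (mu ρ)) =
        ProbabilityTheory.evariance (fun x => ⟪e θ, x⟫_ℝ) (mu ρ) := by
      have hm : Measurable fun x : EuclideanSpace ℝ κ => ⟪θ, x⟫_ℝ := by fun_prop
      unfold ProbabilityTheory.evariance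
      rw [integral_map hes.aemeasurable hm.aestronglyMeasurable,
        lintegral_map (by fun_prop) hes]
      have h7 : ∀ x, ⟪θ, e.symm x⟫_ℝ = ⟪e θ, x⟫_ℝ := by
        intro x
        rw [← e.inner_map_map θ (e.symm x), e.apply_symm_apply]
      simp only [h7]
    rw [h6]
    exact h5) (fun x => f (e x)) (hf.comp e.contDiff) (by
      obtain ⟨B, hB⟩ := hb
      exact ⟨B, fun x => hB _⟩) hfe
  have h8 : (fun x => f (e x)) ∘ e.symm = f := by
    funext x
    simp
  have hfm : Measurable fun x => f (e x) := (hf.continuous.comp e.continuous).measurable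
  rw [hmu, ProbabilityTheory.variance_map hfm.aemeasurable hes.aemeasurable, h8] at key
  exact key

end tr

end Pool.Agent.Q155.IB
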